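import Pool.Agent.W5h65.NC.Mom
import Pool.Agent.W5h65.GS.Ratio

/-!
# Algebraic independence of the cumulants; counting
-/

set_option autoImplicit false

open Set

namespace Pool.Agent.W5h65.NC

open Pool.Agent.R352.E (cc clF Mt subset_clF clF_mono clF_le card_le mem_clF' exp_rat_mem indep_of_span PC)
open Pool.Agent.W5h65.GS (coeff_mem core cum PK)

/-- the closure of `e` and the cumulants contains the values of `Z_n` -/
theorem Z_mem {T : Set ℝ} (he : Real.exp 1 ∈ clF T) (r : ℚ) (L : ℕ) (h : ∀ n < L, rk r n ∈ clF T) (j : ℕ) (hj : j ≤ L) :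
    Zv j r ∈ clF T := by
  have h1 := coeff_mem (T := T) (dPZ (r : ℝ)) (by
    rw [PZ, PowerSeries.coeff_mk, Zv_zero]
    exact exp_rat_mem he r) L (fun n hn => by
      rw [coeff_rk]; exact (clF T).div_mem (h n hn) (natCast_mem (clF T) _)) j hj
  rw [PZ, PowerSeries.coeff_mk] at h1
  exact h1

/-- **Algebraic independence** of `e` and the cumulants without the gamma factor, finite form -/
theorem cum_alg_fin {ι : Type} [Fintype ι] [DecidableEq ι] (r : ι → ℚ) (hinj : Function.Injective r)
    (hpos : ∀ i, 0 < r i) (L : ℕ) :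
    AlgebraicIndependent ℚ (fun o : Sf ι L => o.elim (Real.exp 1)
      (fun p => Sum.elim (fun j : Fin L => rk (r p.1) j) (fun j : Fin L => rk (-(r p.1 : ℝ)) j) p.2)) := by
  set f : Sf ι L → ℝ := fun o => o.elim (Real.exp 1)
      (fun p => Sum.elim (fun j : Fin L => rk (r p.1) j) (fun j : Fin L => rk (-(r p.1 : ℝ)) j) p.2) with hf
  have hm : ∀ o, f o ∈ clF (Set.range f) := fun o => subset_clF _ ⟨o, rfl⟩
  have he : Real.exp 1 ∈ clF (Set.range f) := hm none
  refine indep_of_span (Z_alg_Q L r hinj hpos) (fun o => ?_) le_rfl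
  rcases o with _ | ⟨i, j | j⟩
  · exact he
  · exact Z_mem he (r i) L (fun n hn => hm (some (i, Sum.inl ⟨n, hn⟩))) (j + 1) (by have := j.2; omega)
  · have h1 := Z_mem he (-r i) L (fun n hn => by
      have := hm (some (i, Sum.inr ⟨n, hn⟩))
      push_cast
      exact this) (j + 1) (by have := j.2; omega)
    push_cast at h1
    exact h1

/-- the index type -/
abbrev IN : Type := Option (ℕ × ℚ)

/-- the algebraically independent numbers -/
noncomputable def nm : IN → ℝ
  | none => Real.exp 1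
  | some (n, r) => rk r n

/-- the cumulants themselves -/
noncomputable def cm : IN → ℝ
  | none => Real.exp 1
  | some (n, r) => cum (gN r) (n + 1)

/-- the order -/
def ord : IN → ℕ
  | none => 0
  | some (n, _) => n + 1

/-- the indices with nonzero argument -/
def vld : IN → Prop
  | none => True
  | some (_, r) => r ≠ 0

lemma nm_cm (i : IN) (h : ord i ≠ 0) : nm i = cm i - cc (ord i - 1) := by
  rcases i with _ | ⟨n, r⟩
  · exact absurd rfl h
  · rfl

/-- the embedding of a finite index type -/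
def emI (S : Finset ℚ) (L : ℕ) : Sf S L → IN :=
  fun o => o.elim none (fun p => Sum.elim (fun j : Fin L => some (j.val, p.1.val)) (fun j : Fin L => some (j.val, -p.1.val)) p.2)

lemma nm_alg (S : Finset ℚ) (hS : ∀ r ∈ S, 0 < r) (L : ℕ) : AlgebraicIndependent ℚ (fun o => nm (emI S L o)) := by
  have h := cum_alg_fin (ι := S) (fun r => (r : ℚ)) Subtype.val_injective (fun r => hS r r.2) L
  convert h using 1
  funext o
  rcases o with _ | ⟨i, j | j⟩
  · rfl
  · rfl
  · show rk ((-(i : ℚ) : ℚ) : ℝ) j = rk (-((i : ℚ) : ℝ)) j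
    push_cast
    rfl

/-- **Algebraic independence** of `e` and the cumulants without the gamma factor -/
theorem nm_alg_all : AlgebraicIndependent ℚ (fun i : {i : IN // vld i} => nm i.1) := by
  classical
  refine algebraicIndependent_of_finite_type fun t ht => ?_
  let S : Finset ℚ := ht.toFinset.biUnion fun o => (o.1).elim ∅ (fun p => {|p.2|})
  have hS : ∀ o ∈ t, ∀ n r, o.1 = some (n, r) → |r| ∈ S := by
    intro o ho n r h
    refine Finset.mem_biUnion.2 ⟨o, ht.mem_toFinset.2 ho, ?_⟩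
    rw [h]; simp
  have hpos : ∀ r ∈ S, 0 < r := by
    intro r hr
    obtain ⟨o, ho, hor⟩ := Finset.mem_biUnion.1 hr
    obtain ⟨o, hv⟩ := o
    rcases o with _ | ⟨n, r'⟩
    · simp at hor
    · simp at hor
      rw [hor]
      exact abs_pos.2 hv
  let L : ℕ := ht.toFinset.sup fun o => ord o.1
  have hL : ∀ o ∈ t, ord o.1 ≤ L := fun o ho => Finset.le_sup (f := fun o : {i : IN // vld i} => ord o.1) (ht.mem_toFinset.2 ho)
  have hex : ∀ o : t, ∃ o', emI S L o' = o.1.1 := by
    rintro ⟨⟨o, hv⟩, ho⟩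
    rcases o with _ | ⟨n, r⟩
    · exact ⟨none, rfl⟩
    · have h1 := hS _ ho n r rfl
      have h2 : n < L := hL _ ho
      rcases lt_or_gt_of_ne hv with h3 | h3
      · rw [abs_of_neg h3] at h1
        refine ⟨some (⟨-r, h1⟩, Sum.inr ⟨n, h2⟩), ?_⟩
        show some (n, - -r) = some (n, r)
        rw [neg_neg]
      · rw [abs_of_pos h3] at h1
        exact ⟨some (⟨r, h1⟩, Sum.inl ⟨n, h2⟩), rfl⟩
  choose f hf using hex
  have hfi : Function.Injective f := by
    intro o o' h
    apply Subtype.ext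
    apply Subtype.ext
    rw [← hf, ← hf, h]
  have h := (nm_alg S hpos L).comp f hfi
  convert h using 1
  funext o
  simp only [Function.comp_apply]
  rw [hf]

/-- the counting theorem -/
theorem count_cum {m : ℕ} (con : Fin m → ℝ) (N : Set ℕ) (hN : 0 ∉ N)
    (hcon : ∀ T : Set ℝ, (∀ i, con i ∈ clF T) → ∀ n ∈ N, cc (n - 1) ∈ clF T) (t : Finset (Fin m ⊕ IN))
    (ht : ∀ k ∈ t, Sum.elim con cm k ∈ clF (nm '' {i | vld i ∧ ord i ∉ N}))
    (hv : ∀ i, Sum.inr i ∈ t → vld i ∧ ord i ∈ N) : t.card ≤ m := by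
  classical
  set A : Finset (Fin m) := t.toLeft with hA
  set W : Finset IN := t.toRight with hW
  have hWv : ∀ i ∈ W, vld i ∧ ord i ∈ N := fun i hi => hv i (Finset.mem_toRight.1 hi)
  let P : Set ℝ := con '' (Aᶜ : Finset (Fin m))
  let T : Set ℝ := nm '' {i | vld i ∧ ord i ∉ N} ∪ P
  have hT : ∀ i, con i ∈ clF T := by
    intro i
    by_cases hi : i ∈ A
    · exact clF_mono subset_union_left (ht (Sum.inl i) (Finset.mem_toLeft.1 hi))
    · exact subset_clF _ (Or.inr ⟨i, by simpa using hi, rfl⟩)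
  have hkey := core nm_alg_all {i | ord i.1 ∉ N} (W.subtype vld) (fun i hi => by
      have := (hWv i.1 (Finset.mem_subtype.1 hi)).2
      simp only [mem_ofPred_eq, not_not]
      exact this) P (fun i hi => by
      have e : (fun i : {i : IN // vld i} => nm i.1) '' {i | ord i.1 ∉ N} = nm '' {i | vld i ∧ ord i ∉ N} := by
        ext z
        constructor
        · rintro ⟨i, hi, rfl⟩
          exact ⟨i.1, ⟨i.2, hi⟩, rfl⟩
        · rintro ⟨i, ⟨hi1, hi2⟩, rfl⟩
          exact ⟨⟨i, hi1⟩, hi2, rfl⟩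
      rw [e]
      show nm i.1 ∈ clF T
      have hiW : i.1 ∈ W := Finset.mem_subtype.1 hi
      have hio := (hWv i.1 hiW).2
      rw [nm_cm _ (fun h => hN (h ▸ hio))]
      exact (clF _).sub_mem (clF_mono subset_union_left (ht (Sum.inr i.1) (Finset.mem_toRight.1 hiW)))
        (hcon T hT _ hio))
  have hWcard : (W.subtype vld).card = W.card := by
    rw [Finset.card_subtype, Finset.filter_true_of_mem]
    exact fun i hi => (hWv i hi).1
  rw [hWcard] at hkey
  have hP : P.encard ≤ ((Aᶜ : Finset (Fin m)).card : ℕ∞) := by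
    rw [← encard_coe_eq_coe_finsetCard]
    exact encard_image_le _ _
  have h5 : W.card ≤ (Aᶜ : Finset (Fin m)).card := by exact_mod_cast hkey.trans hP
  rw [Finset.card_compl, Fintype.card_fin] at h5
  have h6 : A.card + W.card = t.card := Finset.card_toLeft_add_card_toRight
  have h7 : A.card ≤ m := by
    have := Finset.card_le_univ A
    rwa [Fintype.card_fin] at this
  omega

/-- the first cumulant -/
theorem cum_one {r : ℚ} (hr : 0 < r) : cum (gN r) 1 = Real.log r + Real.exp (-(r : ℝ)) * Pool.Agent.R352.E.dl 1 r := by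
  have h1 : rk (r : ℝ) 0 = Real.exp (-(r : ℝ)) * Zv 1 r := by
    have h2 := congrArg (PowerSeries.coeff 0) (dPZ (r : ℝ))
    rw [PowerSeries.coeff_derivative, PowerSeries.coeff_mul, Finset.HasAntidiagonal.antidiagonal_zero,
      Finset.sum_singleton, coeff_rk] at h2
    simp only [PZ, PowerSeries.coeff_mk, Zv_zero] at h2
    simp only [Nat.factorial_zero, Nat.cast_one, div_one, Nat.cast_zero, zero_add, mul_one] at h2
    rw [h2, ← mul_assoc, ← Real.exp_add]
    simp
  have h3 : Real.exp (-(r : ℝ)) * Zv 1 r = Pool.Agent.R352.E.EE 1 r := by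
    have hden : 1 ≤ r.den := r.den_pos
    have hnum : (r : ℝ) = (r.num.toNat : ℝ) / (r.den : ℝ) := by
      have h4 : ((r.num.toNat : ℕ) : ℤ) = r.num := Int.toNat_of_nonneg (Rat.num_pos.2 hr).le
      have h5 : ((r.num.toNat : ℕ) : ℝ) = ((r.num : ℤ) : ℝ) := by exact_mod_cast h4
      rw [h5]
      exact_mod_cast (Rat.num_div_den r).symm
    have h6 := ev_YS 1 r.num.toNat r.den hden
    rw [← hnum] at h6
    rw [← h6, Pool.Agent.Y113.ev, Pool.Agent.R352.E.EE]
    have hs : Summable fun k : ℕ => ((PowerSeries.coeff k (YS ((r.num.toNat : ℚ) / r.den) 1) : ℚ) : ℝ) * (1 / 1) ^ k := by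
      have := ((EF_YS 1 r.num.toNat r.den hden).cv)
      unfold Pool.Agent.Y113.Cv at this
      refine Summable.of_norm ?_
      refine this.congr fun k => ?_
      rw [Real.norm_eq_abs, abs_mul]
      simp
    rw [hs.tsum_eq_zero_add]
    have h0 : PowerSeries.coeff 0 (YS ((r.num.toNat : ℚ) / r.den) 1) = 0 := by
      rw [coeff_YS]; simp [Ya]
    rw [h0, Rat.cast_zero, zero_mul, zero_add]
    refine tsum_congr fun k => ?_
    rw [coeff_YS, Ya, Pool.Agent.W5h65.GS.es_zero]
    push_cast
    rw [← hnum]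
    have h7 : ((k : ℝ) + 1) ≠ 0 := by positivity
    have h8 : ((k + 1).factorial : ℝ) ≠ 0 := by positivity
    simp
    field_simp
  have h9 : cum (gN r) 1 = rk (r : ℝ) 0 + cc 0 := by
    rw [rk]; ring
  rw [h9, h1, h3]
  have h10 := Pool.Agent.R352.E.EE_rel 1 (x := (r : ℝ)) (by exact_mod_cast hr)
  rw [h10, Pool.Agent.R352.E.NN]
  have hm : Pool.Agent.R352.E.mo 1 = Pool.Agent.R352.E.cc 0 := by
    have h := Pool.Agent.R352.E.mo_rec 0
    simpa [Pool.Agent.R352.E.mo0] using h
  simp [Finset.sum_range_succ, Pool.Agent.R352.E.mo0, hm]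
  ring

end Pool.Agent.W5h65.NC
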