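import Pool.Agent.W5h65.GS.Val

/-!
# Algebraic independence of values of E-functions satisfying a weighted polynomial system
-/

set_option autoImplicit false
set_option linter.unusedSectionVars false
set_option linter.unusedSimpArgs false

open PowerSeries

namespace Pool.Agent.W5h65.NC

open Pool.Agent.Y113 hiding mon
open Pool.Agent.R352.E
open Pool.Agent.W5h65.GS (aeval_D mon_eq' mon_add' mon_single')

section

variable {σ : Type} [Fintype σ]

/-- the weight of an exponent -/
def wgt (W : σ → ℕ) (s : σ →₀ ℕ) : ℕ := ∑ j, W j * s j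

/-- combinations of monomials of weight at most `d` -/
inductive Wd (W : σ → ℕ) (f : σ → ℚ⟦X⟧) (d : ℕ) : ℚ⟦X⟧ → Prop
  | mon (s : σ →₀ ℕ) (h : wgt W s ≤ d) : Wd W f d (mon f s)
  | zero : Wd W f d 0
  | add {g h : ℚ⟦X⟧} : Wd W f d g → Wd W f d h → Wd W f d (g + h)
  | mul {g : ℚ⟦X⟧} (P : Polynomial ℤ) : Wd W f d g → Wd W f d (ps P * g)

variable {W : σ → ℕ} {f : σ → ℚ⟦X⟧}

lemma wgt_add (s s' : σ →₀ ℕ) : wgt W (s + s') = wgt W s + wgt W s' := by
  simp only [wgt, Finsupp.add_apply, mul_add, Finset.sum_add_distrib]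

lemma wgt_single [DecidableEq σ] (i : σ) (n : ℕ) : wgt W (Finsupp.single i n) = W i * n := by
  rw [wgt, Finset.sum_eq_single i]
  · rw [Finsupp.single_eq_same]
  · intro j _ hj; rw [Finsupp.single_apply, if_neg hj.symm, mul_zero]
  · intro h; exact absurd (Finset.mem_univ _) h

lemma Wd.mono {d d' : ℕ} (h : d ≤ d') {g : ℚ⟦X⟧} (hg : Wd W f d g) : Wd W f d' g := by
  induction hg with
  | mon s hs => exact Wd.mon s (hs.trans h)
  | zero => exact Wd.zero
  | add _ _ h1 h2 => exact h1.add h2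
  | mul P _ h1 => exact h1.mul P

lemma Wd.mon_mul {d : ℕ} (s : σ →₀ ℕ) {g : ℚ⟦X⟧} (hg : Wd W f d g) : Wd W f (wgt W s + d) (Pool.Agent.R352.E.mon f s * g) := by
  induction hg with
  | mon s' hs' =>
    rw [← mon_add']
    exact Wd.mon _ (by rw [wgt_add]; omega)
  | zero => rw [mul_zero]; exact Wd.zero
  | add _ _ h1 h2 => rw [mul_add]; exact h1.add h2
  | mul P _ h1 =>
    rw [mul_left_comm]
    exact h1.mul P

lemma Wd.sum {κ : Type} {d : ℕ} (s : Finset κ) (g : κ → ℚ⟦X⟧) (hg : ∀ k ∈ s, Wd W f d (g k)) :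
    Wd W f d (∑ k ∈ s, g k) := by
  classical
  induction s using Finset.induction_on with
  | empty => rw [Finset.sum_empty]; exact Wd.zero
  | insert a s ha ih =>
    rw [Finset.sum_insert ha]
    exact (hg a (Finset.mem_insert_self _ _)).add (ih fun k hk => hg k (Finset.mem_insert_of_mem hk))

lemma Wd.single [DecidableEq σ] {d : ℕ} (i : σ) (h : W i ≤ d) : Wd W f d (f i) := by
  have := Wd.mon (W := W) (f := f) (d := d) (Finsupp.single i 1) (by rw [wgt_single, mul_one]; exact h)
  rwa [mon_single', pow_one] at this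

lemma Wd.pow [DecidableEq σ] {d : ℕ} (i : σ) (n : ℕ) (h : W i * n ≤ d) : Wd W f d (f i ^ n) := by
  have := Wd.mon (W := W) (f := f) (d := d) (Finsupp.single i n) (by rw [wgt_single]; exact h)
  rwa [mon_single'] at this

lemma Wd.one {d : ℕ} : Wd W f d 1 := by
  have := Wd.mon (W := W) (f := f) (d := d) 0 (by simp [wgt])
  rwa [mon_eq', Finset.prod_eq_one (fun i _ => by rw [Finsupp.coe_zero, Pi.zero_apply, pow_zero])] at this

lemma Wd.neg {d : ℕ} {g : ℚ⟦X⟧} (hg : Wd W f d g) : Wd W f d (-g) := by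
  have h1 : -g = ps (Polynomial.C (-1)) * g := by rw [ps_C]; push_cast; ring
  rw [h1]
  exact hg.mul _

/-- a family of E-functions with a weighted polynomial differential system with singularity at `0` only -/
structure WSys (q : ℕ) (W : σ → ℕ) (f : σ → ℚ⟦X⟧) : Prop where
  hq : 1 ≤ q
  hW : ∀ i, 1 ≤ W i
  hE : ∀ i, EF (f i)
  der : ∀ i, Wd W f (W i) ((TQ q : ℚ⟦X⟧) * d⁄dX ℚ (f i))

variable {q : ℕ}

/-- monomials of weight at most `d` -/
abbrev DW (W : σ → ℕ) (d : ℕ) : Type := {s : σ →₀ ℕ // wgt W s ≤ d}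

lemma DW_finite (hW : ∀ i, 1 ≤ W i) (d : ℕ) : Finite (DW W d) := by
  classical
  have h1 : {s : σ →₀ ℕ | wgt W s ≤ d}.Finite := by
    apply (Set.finite_Iic (Finsupp.equivFunOnFinite.symm (fun _ => d) : σ →₀ ℕ)).subset
    intro s hs i
    rw [Finsupp.equivFunOnFinite_symm_apply_apply]
    have h2 : W i * s i ≤ ∑ v, W v * s v :=
      Finset.single_le_sum (f := fun v => W v * s v) (fun _ _ => Nat.zero_le _) (Finset.mem_univ i)
    have h3 : s i ≤ W i * s i := Nat.le_mul_of_pos_left _ (hW i)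
    exact h3.trans (h2.trans hs)
  exact h1.to_subtype

lemma Wd.toSp {d : ℕ} [Fintype (DW W d)] {g : ℚ⟦X⟧} (hg : Wd W f d g) :
    Sp (fun s : DW W d => Pool.Agent.R352.E.mon f s.1) g := by
  induction hg with
  | mon s hs => exact Sp.mem (y := fun s : DW W d => Pool.Agent.R352.E.mon f s.1) (⟨s, hs⟩ : DW W d)
  | zero => exact Sp.zero
  | add _ _ h1 h2 => exact h1.add h2
  | mul P _ h1 => exact h1.mul P

lemma EF_mon2 (R : WSys q W f) (s : σ →₀ ℕ) : EF (mon f s) := by
  rw [mon_eq']
  exact EF.prod _ _ fun i _ => (R.hE i).pow _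

/-- the derivative of a monomial -/
lemma deriv_mon2 (s : σ →₀ ℕ) : (TQ q : ℚ⟦X⟧) * d⁄dX ℚ (mon f s) =
    ∑ i, (if s i = 0 then 0 else ps (Polynomial.C (s i : ℤ)) *
      (mon f (s - Finsupp.single i 1) * ((TQ q : ℚ⟦X⟧) * d⁄dX ℚ (f i)))) := by
  rw [mon, aeval_D]
  refine Finset.sum_congr rfl fun i _ => ?_
  rw [MvPolynomial.pderiv_monomial]
  split_ifs with h0
  · rw [h0]; simp
  · have h2 : MvPolynomial.monomial (s - Finsupp.single i 1) ((1 : ℚ) * (s i : ℚ)) =
        MvPolynomial.C (s i : ℚ) * MvPolynomial.monomial (s - Finsupp.single i 1) (1 : ℚ) := by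
      rw [MvPolynomial.C_mul_monomial, one_mul, mul_one]
    rw [h2, map_mul, MvPolynomial.aeval_C, ps_C, mon, map_natCast]
    push_cast
    ring

/-- the monomials of bounded weight form a differential system -/
theorem deriv_Wd (R : WSys q W f) {d : ℕ} (s : σ →₀ ℕ) (hs : wgt W s ≤ d) :
    Wd W f d ((TQ q : ℚ⟦X⟧) * d⁄dX ℚ (mon f s)) := by
  classical
  rw [deriv_mon2]
  refine Wd.sum _ _ fun i _ => ?_
  split_ifs with h0
  · exact Wd.zero
  apply Wd.mul
  refine ((R.der i).mon_mul (s - Finsupp.single i 1)).mono ?_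
  have h1 : s - Finsupp.single i 1 + Finsupp.single i 1 = s := Finsupp.sub_add_single_one_cancel h0
  have h2 : wgt W s = wgt W (s - Finsupp.single i 1) + W i := by
    conv_lhs => rw [← h1]
    rw [wgt_add, wgt_single, mul_one]
  omega

/-- linear independence over `ℚ` of the values at `1` of the monomials -/
theorem val_LI2 (R : WSys q W f) (hLI : LinearIndependent (Polynomial ℚ) (fun s : σ →₀ ℕ => mon f s)) {d : ℕ}
    [Fintype (DW W d)] : LinearIndependent ℚ (fun s : DW W d => ev 1 (mon f s.1)) := by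
  classical
  let e : Fin (Fintype.card (DW W d)) ≃ DW W d := (Fintype.equivFin _).symm
  set y : Fin (Fintype.card (DW W d)) → ℚ⟦X⟧ := fun i => mon f (e i).1 with hy
  obtain ⟨C, hC, h1, h2⟩ := EF.common (y := y) (fun i => EF_mon2 R (e i).1)
  have hSys : ESys q C y :=
    { one_le := hC
      hq := R.hq
      size := h1
      den := h2
      der := by
        have h3 := fun i => (deriv_Wd R (e i).1 (e i).2).toSp
        choose B hB using h3
        refine ⟨fun i j => B i (e j), fun i => ?_⟩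
        rw [hy, hB i, ← Equiv.sum_comp e] }
  have hz : wgt W (0 : σ →₀ ℕ) ≤ d := by simp [wgt]
  have h0 : e (e.symm ⟨0, hz⟩) = (⟨0, hz⟩ : DW W d) := e.apply_symm_apply _
  have h3 := E_lin hSys (e.symm ⟨0, hz⟩) (by
    rw [hy]
    simp only [h0]
    rw [mon_eq']; simp) (hLI.comp (fun i => (e i).1) (Subtype.val_injective.comp e.injective))
  have h4 := h3.comp e.symm e.symm.injective
  convert h4 using 1
  funext s
  simp only [Function.comp_apply, hy, Equiv.apply_symm_apply]

lemma ev_mon2 (R : WSys q W f) (s : σ →₀ ℕ) : ev 1 (mon f s) = ∏ i, ev 1 (f i) ^ s i := by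
  rw [mon_eq', Cv.ev_prod one_pos _ _ (fun i _ => (R.hE i).cv.pow one_pos _)]
  exact Finset.prod_congr rfl fun i _ => (R.hE i).cv.ev_pow one_pos _

/-- **Siegel–Shidlovskii**: algebraic independence of the values at `1` -/
theorem val_alg2 (R : WSys q W f) (hLI : LinearIndependent (Polynomial ℚ) (fun s : σ →₀ ℕ => mon f s)) :
    AlgebraicIndependent ℚ (fun i : σ => ev 1 (f i)) := by
  classical
  rw [algebraicIndependent_iff]
  intro p hval
  set d : ℕ := ∑ s ∈ p.support, wgt W s with hd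
  have := DW_finite (W := W) R.hW d
  let _ : Fintype (DW W d) := Fintype.ofFinite _
  have hmem : ∀ s ∈ p.support, wgt W s ≤ d := by
    intro s hs
    rw [hd]
    exact Finset.single_le_sum (f := fun s : σ →₀ ℕ => wgt W s) (fun _ _ => Nat.zero_le _) hs
  have hLI := Fintype.linearIndependent_iff.1 (val_LI2 R hLI (d := d))
    (fun s => MvPolynomial.coeff s.1 p) (by
      have h1 : ∑ s : DW W d, MvPolynomial.coeff s.1 p • ev 1 (mon f s.1) =
          ∑ s ∈ (Finset.univ : Finset (DW W d)).map ⟨Subtype.val, Subtype.val_injective⟩,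
            MvPolynomial.coeff s p • ev 1 (mon f s) := by
        rw [Finset.sum_map]; rfl
      rw [h1, ← hval]
      have h2 : p.support ⊆ (Finset.univ : Finset (DW W d)).map ⟨Subtype.val, Subtype.val_injective⟩ := by
        intro s hs
        rw [Finset.mem_map]
        exact ⟨⟨s, hmem s hs⟩, Finset.mem_univ _, rfl⟩
      rw [← Finset.sum_subset h2 (fun s _ hs => by rw [MvPolynomial.notMem_support_iff.1 hs, zero_smul])]
      conv_rhs => rw [MvPolynomial.as_sum p, map_sum]
      refine Finset.sum_congr rfl fun s _ => ?_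
      rw [MvPolynomial.aeval_monomial, ev_mon2 R, Finsupp.prod_fintype _ _ (fun i => pow_zero _), Algebra.smul_def])
  ext s
  rw [MvPolynomial.coeff_zero]
  by_cases hs : s ∈ p.support
  · exact hLI ⟨s, hmem s hs⟩
  · exact MvPolynomial.notMem_support_iff.1 hs

end

end Pool.Agent.W5h65.NC
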