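import Pool.Agent.W5h65.NC.Ind
import Pool.Agent.W5h65.NC.Val2
import Pool.Agent.R352.E.Cnt

/-!
# Algebraic independence of `e` and the values of `Z_n` at rational numbers
-/

set_option autoImplicit false
set_option linter.unusedSectionVars false

open PowerSeries

namespace Pool.Agent.W5h65.NC

open Pool.Agent.Y113 hiding mon EE
open Pool.Agent.R352.E
open Pool.Agent.W5h65.GS (Va es es_bound)

section

variable {ι : Type} [Fintype ι] [DecidableEq ι] (q : ℕ) (m : ι → ℕ) (L : ℕ)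

/-- the finite index type -/
abbrev Sf (ι : Type) (L : ℕ) : Type := Option (ι × (Fin L ⊕ Fin L))

/-- the embedding in the infinite index type -/
def emb : Sf ι L → Option (Va ι) := Option.map (Prod.map id (Sum.map Fin.val Fin.val))

lemma emb_inj : Function.Injective (emb (ι := ι) L) :=
  Option.map_injective (Function.Injective.prodMap Function.injective_id
    (Function.Injective.sumMap Fin.val_injective Fin.val_injective))

/-- the finite family -/
noncomputable def fs : Sf ι L → ℚ⟦X⟧ := ff q m ∘ emb L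

lemma mon_fs (s : Sf ι L →₀ ℕ) : mon (fs q m L) s = mon (ff q m) (s.mapDomain (emb L)) := by
  rw [mon, mon, ← MvPolynomial.rename_monomial, MvPolynomial.aeval_rename]
  rfl

theorem fs_LI (hq : 1 ≤ q) (hinj : Function.Injective m) (hpos : ∀ i, 1 ≤ m i) :
    LinearIndependent (Polynomial ℚ) (fun s : Sf ι L →₀ ℕ => mon (fs q m L) s) := by
  have h := (mon_indep q m hq hinj hpos).comp (Finsupp.mapDomain (emb L)) (Finsupp.mapDomain_injective (emb_inj L))
  convert h using 1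
  funext s
  exact mon_fs q m L s

/-- the weights -/
def WW (M : ℕ) : Sf ι L → ℕ
  | none => 1
  | some _ => M

lemma Wd_Y {M : ℕ} (hM : 1 ≤ M) (i : ι) (n : ℕ) (hn : n ≤ L) : Wd (WW L M) (fs q m L) M (YS ((m i : ℚ) / q) n) := by
  cases n with
  | zero => rw [YS_zero]; exact Wd.one
  | succ n => exact Wd.single (W := WW L M) (f := fs q m L) (some (i, Sum.inl ⟨n, by omega⟩)) le_rfl

lemma Wd_V {M : ℕ} (i : ι) (hM : m i ≤ M) (n : ℕ) (hn : n ≤ L) : Wd (WW L M) (fs q m L) M (VS ((m i : ℚ) / q) n) := by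
  cases n with
  | zero =>
    rw [VS_zero]
    exact Wd.pow (W := WW L M) (f := fs q m L) none (m i) (by simpa [WW] using hM)
  | succ n => exact Wd.single (W := WW L M) (f := fs q m L) (some (i, Sum.inr ⟨n, by omega⟩)) le_rfl

lemma fs_sys (hq : 1 ≤ q) {M : ℕ} (hM1 : 1 ≤ M) (hM : ∀ i, m i ≤ M) : WSys q (WW L M) (fs q m L) where
  hq := hq
  hW := by
    rintro (_ | p)
    · exact le_rfl
    · exact hM1
  hE := by
    rintro (_ | ⟨i, j | j⟩)
    · exact EF_wS _ hq
    · exact EF_YS _ _ _ hq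
    · exact EF_VS _ _ _ hq
  der := by
    classical
    have hq0 : (q : ℚ) ≠ 0 := by exact_mod_cast (by omega : q ≠ 0)
    have hpsq : ps (Polynomial.C (q : ℤ)) = (q : ℚ⟦X⟧) := by rw [ps_C]; simp
    rintro (_ | ⟨i, j | j⟩)
    · show Wd _ _ 1 ((TQ q : ℚ⟦X⟧) * d⁄dX ℚ (wS q))
      rw [deriv_wS hq]
      have e : -(X * wS q) = ps (-Polynomial.X) * wS q := by
        have h1 : (-Polynomial.X : Polynomial ℤ) = Polynomial.C (-1) * Polynomial.X := by simp
        rw [h1, ps_mul, ps_C, ps_X]; push_cast; ring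
      rw [e]
      exact (Wd.single (W := WW L M) (f := fs q m L) none le_rfl).mul _
    · show Wd _ _ M ((TQ q : ℚ⟦X⟧) * d⁄dX ℚ (YS ((m i : ℚ) / q) (j + 1)))
      have e : (TQ q : ℚ⟦X⟧) * d⁄dX ℚ (YS ((m i : ℚ) / q) (j + 1)) =
          ps (Polynomial.C (q : ℤ)) * (YS ((m i : ℚ) / q) j + -VS ((m i : ℚ) / q) j) := by
        rw [TQ_eq, hpsq, mul_assoc, deriv_YS]; ring
      rw [e]
      exact ((Wd_Y q m L hM1 i j (by have := j.2; omega)).add (Wd_V q m L i (hM i) j (by have := j.2; omega)).neg).mul _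
    · show Wd _ _ M ((TQ q : ℚ⟦X⟧) * d⁄dX ℚ (VS ((m i : ℚ) / q) (j + 1)))
      have hc : (q : ℚ⟦X⟧) * C ((m i : ℚ) / q) = (m i : ℚ⟦X⟧) := by
        have h1 : (q : ℚ⟦X⟧) = C (q : ℚ) := by simp
        have h2 : (m i : ℚ⟦X⟧) = C (m i : ℚ) := by simp
        rw [h1, h2, ← map_mul]
        congr 1
        field_simp
      have e : (TQ q : ℚ⟦X⟧) * d⁄dX ℚ (VS ((m i : ℚ) / q) (j + 1)) =
          ps (Polynomial.C (-(m i : ℤ)) * Polynomial.X) * VS ((m i : ℚ) / q) (j + 1) +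
          ps (Polynomial.C (q : ℤ)) * (YS ((m i : ℚ) / q) j + -VS ((m i : ℚ) / q) j) := by
        rw [TQ_eq, hpsq, ps_mul, ps_C, ps_X, mul_assoc, deriv_VS]
        push_cast
        linear_combination (-(X * VS ((m i : ℚ) / q) (j + 1))) * hc
      rw [e]
      exact ((Wd.single (W := WW L M) (f := fs q m L) (some (i, Sum.inr j)) le_rfl).mul _).add
        (((Wd_Y q m L hM1 i j (by have := j.2; omega)).add (Wd_V q m L i (hM i) j (by have := j.2; omega)).neg).mul _)

/-- the function `Z_n`, `1F1(1+ε; 1; x) = ∑ Z_n(x) ε^n` -/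
noncomputable def Zv (n : ℕ) (x : ℝ) : ℝ := ∑' k : ℕ, ((es n k : ℚ) : ℝ) * (x ^ k / k.factorial)

lemma ev_ZS (c : ℚ) (n : ℕ) : ev 1 (ZS c n) = Zv n c := by
  rw [ev, Zv]
  refine tsum_congr fun k => ?_
  rw [coeff_ZS]
  push_cast
  simp

lemma ev_VS (c : ℚ) (n : ℕ) : ev 1 (VS c n) = (-1) ^ n * Zv n (-c) := by
  have h := VS_neg (-c) n
  rw [neg_neg] at h
  rw [h, ev, Zv, ← tsum_mul_left]
  refine tsum_congr fun k => ?_
  rw [coeff_C_mul, coeff_ZS]
  push_cast
  simp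

lemma EF_ZS (n m q : ℕ) (hq : 1 ≤ q) : EF (ZS ((m : ℚ) / q) n) := by
  have h := EF_gen (fun k => (-1) ^ k * es n k) n m q hq (fun k => ?_) (fun N k hk => ?_)
  · have e : ZS ((m : ℚ) / q) n = PowerSeries.mk fun k => (-1) ^ k * es n k * ((-((m : ℚ) / q)) ^ k / k.factorial) := by
      ext k
      rw [coeff_ZS, coeff_mk, neg_pow]
      have hs : ((-1 : ℚ) ^ k) * (-1) ^ k = 1 := by rw [← mul_pow]; norm_num
      linear_combination (-(es n k * (((m : ℚ) / q) ^ k / k.factorial))) * hs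
    rw [e]
    exact h
  · rw [abs_mul, abs_pow, abs_neg, abs_one, one_pow, one_mul]
    exact es_le n k
  · obtain ⟨z, hz⟩ := Pool.Agent.W5h65.GS.es_int N n k hk
    refine ⟨(-1) ^ k * z, ?_⟩
    push_cast
    rw [← hz]
    ring

lemma ev_YS (n m q : ℕ) (hq : 1 ≤ q) : ev 1 (YS ((m : ℚ) / q) n) = Real.exp (-((m : ℝ) / q)) * Zv n ((m : ℝ) / q) := by
  have h1 : YS ((m : ℚ) / q) n = wS q ^ m * ZS ((m : ℚ) / q) n := by
    have h2 := kummer n ((m : ℚ) / q)
    rw [h2, wS_pow]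
    have h3 : rescale (-(m : ℚ) / q) (exp ℚ) * rescale ((m : ℚ) / q) (exp ℚ) = 1 := by
      rw [exp_mul_exp_eq_exp_add]
      have : (-(m : ℚ) / q + m / q) = 0 := by ring
      rw [this]; simp
    linear_combination (-(YS ((m : ℚ) / q) n)) * h3
  rw [h1, Cv.ev_mul one_pos ((EF_wS q hq).cv.pow one_pos _) (EF_ZS n m q hq).cv, (EF_wS q hq).cv.ev_pow one_pos, ev_wS,
    ev_ZS, ← Real.exp_nat_mul]
  congr 2
  · ring
  · push_cast; rfl

/-- algebraic independence, integral form -/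
theorem YV_alg (hq : 1 ≤ q) (hinj : Function.Injective m) (hpos : ∀ i, 1 ≤ m i) :
    AlgebraicIndependent ℚ (fun o : Sf ι L => o.elim (Real.exp (-1 / q))
      (fun p => Sum.elim (fun j : Fin L => Real.exp (-((m p.1 : ℝ) / q)) * Zv (j + 1) ((m p.1 : ℝ) / q))
        (fun j : Fin L => (-1) ^ ((j : ℕ) + 1) * Zv (j + 1) (-((m p.1 : ℝ) / q))) p.2)) := by
  obtain ⟨M, hM1, hM⟩ : ∃ M : ℕ, 1 ≤ M ∧ ∀ i, m i ≤ M := by
    refine ⟨1 + ∑ i, m i, by omega, fun i => ?_⟩
    have := Finset.single_le_sum (f := fun i => m i) (fun _ _ => Nat.zero_le _) (Finset.mem_univ i)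
    omega
  have h1 := val_alg2 (fs_sys q m L hq hM1 hM) (fs_LI q m L hq hinj hpos)
  convert h1 using 1
  funext o
  rcases o with _ | ⟨i, j | j⟩
  · show Real.exp (-1 / q) = ev 1 (wS q)
    rw [ev_wS]
  · show _ = ev 1 (YS _ (j + 1))
    rw [ev_YS _ _ _ hq]
    rfl
  · show _ = ev 1 (VS _ (j + 1))
    rw [ev_VS]
    push_cast
    rfl

/-- **Algebraic independence** of `e` and the values `Z_{j+1}(± r_i)` -/
theorem Z_alg_Q (r : ι → ℚ) (hinj : Function.Injective r) (hpos : ∀ i, 0 < r i) :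
    AlgebraicIndependent ℚ (fun o : Sf ι L => o.elim (Real.exp 1)
      (fun p => Sum.elim (fun j : Fin L => Zv (j + 1) (r p.1)) (fun j : Fin L => Zv (j + 1) (-(r p.1 : ℝ))) p.2)) := by
  set N : ℕ := ∏ i, (r i).den with hqd
  have hN : 1 ≤ N := Nat.one_le_iff_ne_zero.2 (Finset.prod_ne_zero_iff.2 fun i _ => (r i).den_ne_zero)
  have hm : ∀ i, ∃ m : ℕ, 1 ≤ m ∧ (m : ℚ) / N = r i := by
    intro i
    obtain ⟨c, hc⟩ := Finset.dvd_prod_of_mem (fun i => (r i).den) (Finset.mem_univ i)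
    have hc' : N = (r i).den * c := hc
    have hnum : 0 < (r i).num := Rat.num_pos.2 (hpos i)
    have hc0 : c ≠ 0 := by
      rintro rfl
      rw [mul_zero] at hc'
      omega
    refine ⟨(r i).num.toNat * c, ?_, ?_⟩
    · have h1 : 1 ≤ (r i).num.toNat := by omega
      exact Nat.one_le_iff_ne_zero.2 (Nat.mul_ne_zero (by omega) hc0)
    · have h2 : (((r i).num.toNat : ℕ) : ℚ) = ((r i).num : ℚ) := by
        have : (((r i).num.toNat : ℕ) : ℤ) = (r i).num := Int.toNat_of_nonneg hnum.le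
        exact_mod_cast this
      have h3 : (r i : ℚ) = ((r i).num : ℚ) / ((r i).den : ℚ) := (Rat.num_div_den (r i)).symm
      rw [hc']
      conv_rhs => rw [h3]
      push_cast
      rw [h2]
      have : ((r i).den : ℚ) ≠ 0 := by exact_mod_cast (r i).den_ne_zero
      have : (c : ℚ) ≠ 0 := by exact_mod_cast hc0
      field_simp
  choose mm hmm using hm
  have hinj' : Function.Injective mm := by
    intro i j hij
    apply hinj
    rw [← (hmm i).2, ← (hmm j).2, hij]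
  have h := YV_alg N mm L hN hinj' (fun i => (hmm i).1)
  have harg : ∀ i, ((mm i : ℝ) / N) = (r i : ℝ) := by
    intro i
    have h1 := (hmm i).2
    have h2 : (((mm i : ℚ) / N : ℚ) : ℝ) = ((r i : ℚ) : ℝ) := by rw [h1]
    push_cast at h2
    exact h2
  simp only [harg] at h
  set y : Sf ι L → ℝ := fun o => o.elim (Real.exp 1)
      (fun p => Sum.elim (fun j : Fin L => Zv (j + 1) (r p.1)) (fun j : Fin L => Zv (j + 1) (-(r p.1 : ℝ))) p.2) with hy
  have he : Real.exp 1 ∈ clF (Set.range y) := subset_clF _ ⟨none, rfl⟩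
  refine indep_of_span h (fun o => ?_) le_rfl
  rcases o with _ | ⟨i, j | j⟩
  · simp only [Option.elim]
    refine of_pow (n := N) (by omega) ?_
    rw [← Real.exp_nat_mul]
    have h1 : ((N : ℕ) : ℝ) * (-1 / (N : ℕ)) = -1 := by
      have : ((N : ℕ) : ℝ) ≠ 0 := by exact_mod_cast (by omega : N ≠ 0)
      field_simp
    rw [h1, Real.exp_neg]
    exact (clF _).inv_mem he
  · show Real.exp (-(r i : ℝ)) * Zv (j + 1) (r i) ∈ clF (Set.range y)
    refine (clF _).mul_mem ?_ (subset_clF _ ⟨some (i, Sum.inl j), rfl⟩)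
    have := exp_rat_mem he (-(r i))
    push_cast at this
    exact this
  · show (-1) ^ ((j : ℕ) + 1) * Zv (j + 1) (-(r i : ℝ)) ∈ clF (Set.range y)
    exact (clF _).mul_mem ((clF _).pow_mem ((clF _).neg_mem (clF _).one_mem) _) (subset_clF _ ⟨some (i, Sum.inr j), rfl⟩)

end

end Pool.Agent.W5h65.NC
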