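import Pool.Agent.W5h65.GS.Cum

/-!
# Derivatives in the exponent; cumulants, for functions with decay `exp (-s/2)`
-/

set_option autoImplicit false

open Filter Topology Set MeasureTheory

namespace Pool.Agent.W5h65.NC

open Pool.Agent.W5h65.GS (pow_int rpow_le_add FI zero_mem cum PM PK)

lemma pow_int2 (a : ℝ) (ha : -1 < a) (l : ℕ) :
    IntegrableOn (fun s : ℝ => s ^ a * (|Real.log s| ^ l * Real.exp (-(s / 2)))) (Ioi 0) := by
  have hlog : ContinuousOn (fun s : ℝ => Real.log (2 * s)) (Ioi 0) := by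
    refine ContinuousOn.log (by fun_prop) fun s hs => ?_
    have hs' : (0 : ℝ) < s := hs
    positivity
  have h1 : IntegrableOn (fun t : ℝ => (2 * t) ^ a * (|Real.log (2 * t)| ^ l * Real.exp (-t))) (Ioi 0) := by
    have h2 : IntegrableOn (fun t : ℝ => ∑ i ∈ Finset.range (l + 1),
        (2 ^ a * (|Real.log 2| ^ (l - i) * (l.choose i))) * (t ^ a * (|Real.log t| ^ i * Real.exp (-t)))) (Ioi 0) :=
      integrable_finsetSum _ fun i _ => (pow_int a ha i).const_mul _
    refine Integrable.mono' h2 ?_ ?_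
    · refine ContinuousOn.aestronglyMeasurable ?_ measurableSet_Ioi
      refine ContinuousOn.mul ?_ ((hlog.abs.pow _).mul (by fun_prop))
      refine ContinuousOn.rpow_const (by fun_prop) fun s hs => Or.inl ?_
      have hs' : (0 : ℝ) < s := hs
      positivity
    · filter_upwards [ae_restrict_mem measurableSet_Ioi] with t ht
      have ht' : (0 : ℝ) < t := ht
      have e1 : (2 * t) ^ a = 2 ^ a * t ^ a := Real.mul_rpow (by norm_num) ht'.le
      have e2 : |Real.log (2 * t)| ≤ |Real.log t| + |Real.log 2| := by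
        rw [Real.log_mul (by norm_num) ht'.ne', add_comm (Real.log 2)]
        exact abs_add_le _ _
      have e3 : |Real.log (2 * t)| ^ l ≤ ∑ i ∈ Finset.range (l + 1), |Real.log t| ^ i * |Real.log 2| ^ (l - i) * (l.choose i) := by
        rw [← add_pow]
        exact pow_le_pow_left₀ (abs_nonneg _) e2 l
      have e4 : 0 < (2 : ℝ) ^ a * t ^ a := mul_pos (Real.rpow_pos_of_pos (by norm_num) _) (Real.rpow_pos_of_pos ht' _)
      rw [e1, Real.norm_eq_abs, abs_of_nonneg (mul_nonneg e4.le (by positivity))]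
      calc (2 : ℝ) ^ a * t ^ a * (|Real.log (2 * t)| ^ l * Real.exp (-t))
          ≤ 2 ^ a * t ^ a * ((∑ i ∈ Finset.range (l + 1), |Real.log t| ^ i * |Real.log 2| ^ (l - i) * (l.choose i)) *
            Real.exp (-t)) := mul_le_mul_of_nonneg_left (mul_le_mul_of_nonneg_right e3 (Real.exp_pos _).le) e4.le
        _ = _ := by
          rw [Finset.sum_mul, Finset.mul_sum]
          exact Finset.sum_congr rfl fun i _ => by ring
  have h3 := (integrableOn_Ioi_comp_mul_left_iff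
    (fun t : ℝ => (2 * t) ^ a * (|Real.log (2 * t)| ^ l * Real.exp (-t))) 0 (show (0 : ℝ) < 1 / 2 by norm_num)).2
    (by rw [mul_zero]; exact h1)
  refine h3.congr_fun (fun s _ => ?_) measurableSet_Ioi
  simp only
  have e : 2 * (1 / 2 * s) = s := by ring
  rw [e]
  congr 3
  ring

/-- continuous functions on the half line with exponential decay `exp (-s/2)` -/
structure Nice2 (g : ℝ → ℝ) : Prop where
  cont : ContinuousOn g (Ioi 0)
  bound : ∃ C : ℝ, ∀ s, 0 < s → |g s| ≤ C * Real.exp (-(s / 2))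

lemma Nice2.meas {g : ℝ → ℝ} (hg : Nice2 g) (l : ℕ) (x : ℝ) :
    AEStronglyMeasurable (fun s : ℝ => s ^ x * (Real.log s ^ l * g s)) (volume.restrict (Ioi (0 : ℝ))) := by
  refine ContinuousOn.aestronglyMeasurable ?_ measurableSet_Ioi
  refine ContinuousOn.mul ?_ (ContinuousOn.mul (ContinuousOn.pow ?_ _) hg.cont)
  · exact ContinuousOn.rpow_const continuousOn_id fun s hs => Or.inl (ne_of_gt hs)
  · exact Real.continuousOn_log.mono fun x hx => (ne_of_gt hx : x ≠ 0)

lemma Nice2.integrable {g : ℝ → ℝ} (hg : Nice2 g) (l : ℕ) {x : ℝ} (hx : -1 < x) :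
    IntegrableOn (fun s : ℝ => s ^ x * (Real.log s ^ l * g s)) (Ioi 0) := by
  obtain ⟨C, hC⟩ := hg.bound
  refine Integrable.mono' ((pow_int2 x hx l).const_mul C) (hg.meas l x) ?_
  filter_upwards [ae_restrict_mem measurableSet_Ioi] with s hs
  have hs' : (0 : ℝ) < s := hs
  rw [norm_mul, norm_mul, norm_pow, Real.norm_eq_abs, Real.norm_eq_abs, Real.norm_eq_abs,
    abs_of_pos (Real.rpow_pos_of_pos hs' _)]
  have h1 := hC s hs'
  have h2 : 0 < s ^ x := Real.rpow_pos_of_pos hs' _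
  calc s ^ x * (|Real.log s| ^ l * |g s|) ≤ s ^ x * (|Real.log s| ^ l * (C * Real.exp (-(s / 2)))) :=
        mul_le_mul_of_nonneg_left (mul_le_mul_of_nonneg_left h1 (by positivity)) h2.le
    _ = _ := by ring

lemma FI_deriv2 {g : ℝ → ℝ} (hg : Nice2 g) (l : ℕ) {x₀ : ℝ} (hx₀ : x₀ ∈ Ioo (-(1 / 2) : ℝ) (1 / 2)) :
    HasDerivAt (FI g l) (FI g (l + 1) x₀) x₀ := by
  obtain ⟨C, hC⟩ := hg.bound
  have hI : Ioo (-(1 / 2) : ℝ) (1 / 2) ∈ 𝓝 x₀ := isOpen_Ioo.mem_nhds hx₀
  have h := hasDerivAt_integral_of_dominated_loc_of_deriv_le (μ := volume.restrict (Ioi (0 : ℝ))) hI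
    (F := fun x s => s ^ x * (Real.log s ^ l * g s)) (F' := fun x s => s ^ x * (Real.log s ^ (l + 1) * g s))
    (bound := fun s => C * (s ^ (-(1 / 2) : ℝ) * (|Real.log s| ^ (l + 1) * Real.exp (-(s / 2))) +
      s ^ (1 / 2 : ℝ) * (|Real.log s| ^ (l + 1) * Real.exp (-(s / 2)))))
    (Eventually.of_forall fun x => hg.meas l x) (hg.integrable l (by have := hx₀.1; linarith)) (hg.meas (l + 1) x₀) ?_
    (((pow_int2 _ (by norm_num) _).add (pow_int2 _ (by norm_num) _)).const_mul C) ?_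
  · exact h.2
  · filter_upwards [ae_restrict_mem measurableSet_Ioi] with s hs x hx
    have hs' : (0 : ℝ) < s := hs
    rw [norm_mul, norm_mul, norm_pow, Real.norm_eq_abs, Real.norm_eq_abs, Real.norm_eq_abs,
      abs_of_pos (Real.rpow_pos_of_pos hs' _)]
    have h1 := hC s hs'
    have h2 : 0 < s ^ x := Real.rpow_pos_of_pos hs' _
    have h3 := rpow_le_add hs' hx
    have hC0 : 0 ≤ C * Real.exp (-(s / 2)) := (abs_nonneg _).trans h1
    calc s ^ x * (|Real.log s| ^ (l + 1) * |g s|) ≤ (s ^ (-(1 / 2) : ℝ) + s ^ (1 / 2 : ℝ)) *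
          (|Real.log s| ^ (l + 1) * (C * Real.exp (-(s / 2)))) :=
          mul_le_mul h3 (mul_le_mul_of_nonneg_left h1 (by positivity)) (by positivity) (by positivity)
      _ = _ := by ring
  · filter_upwards [ae_restrict_mem measurableSet_Ioi] with s hs x hx
    have hs' : (0 : ℝ) < s := hs
    have h1 := (Real.hasStrictDerivAt_const_rpow hs' x).hasDerivAt.mul_const (Real.log s ^ l * g s)
    refine h1.congr_deriv ?_
    rw [pow_succ]; ring

lemma FI_contDiffOn2 {g : ℝ → ℝ} (hg : Nice2 g) (k : ℕ) : ∀ l : ℕ, ContDiffOn ℝ k (FI g l) (Ioo (-(1 / 2) : ℝ) (1 / 2)) := by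
  induction k with
  | zero =>
    intro l
    rw [Nat.cast_zero, contDiffOn_zero]
    exact fun x hx => (FI_deriv2 hg l hx).continuousAt.continuousWithinAt
  | succ k ih =>
    intro l
    have h := (contDiffOn_succ_iff_deriv_of_isOpen (𝕜 := ℝ) (f := FI g l) (n := (k : WithTop ℕ∞))
      (s := Ioo (-(1 / 2) : ℝ) (1 / 2)) isOpen_Ioo).2
      ⟨fun x hx => (FI_deriv2 hg l hx).differentiableAt.differentiableWithinAt, by simp, ?_⟩
    · exact_mod_cast h
    · refine (ih (l + 1)).congr fun x hx => ?_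
      exact (FI_deriv2 hg l hx).deriv

lemma FI_contDiffAt2 {g : ℝ → ℝ} (hg : Nice2 g) (k l : ℕ) : ContDiffAt ℝ k (FI g l) 0 :=
  (FI_contDiffOn2 hg k l).contDiffAt (isOpen_Ioo.mem_nhds zero_mem)

lemma FI_iterated2 {g : ℝ → ℝ} (hg : Nice2 g) (i : ℕ) : ∀ l : ℕ, ∀ x ∈ Ioo (-(1 / 2) : ℝ) (1 / 2),
    iteratedDeriv i (FI g l) x = FI g (l + i) x := by
  induction i with
  | zero => intro l x _; simp
  | succ i ih =>
    intro l x hx
    rw [iteratedDeriv_succ]
    have h : iteratedDeriv i (FI g l) =ᶠ[𝓝 x] FI g (l + i) := by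
      filter_upwards [isOpen_Ioo.mem_nhds hx] with z hz
      exact ih l z hz
    rw [h.deriv_eq, (FI_deriv2 hg (l + i) hx).deriv]
    rfl

/-- the recursion of the cumulants -/
theorem cum_rec2 {g : ℝ → ℝ} (hg : Nice2 g) (h0 : FI g 0 0 ≠ 0) (n : ℕ) :
    FI g (n + 1) 0 = ∑ i ∈ Finset.range (n + 1), (n.choose i : ℝ) * (FI g (n - i) 0 * cum g (i + 1)) := by
  set L : ℝ → ℝ := fun ε => Real.log (FI g 0 ε) with hL
  have hcont : ContinuousAt (FI g 0) 0 := (FI_deriv2 hg 0 zero_mem).continuousAt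
  have hne : ∀ᶠ ε in 𝓝 (0 : ℝ), FI g 0 ε ≠ 0 := hcont.eventually_ne h0
  have hI : Ioo (-(1 / 2) : ℝ) (1 / 2) ∈ 𝓝 (0 : ℝ) := isOpen_Ioo.mem_nhds zero_mem
  have h1 : FI g 1 =ᶠ[𝓝 0] (FI g 0 * deriv L) := by
    filter_upwards [hne, hI] with ε hε hεI
    have h2 : HasDerivAt L (FI g 1 ε / FI g 0 ε) ε := (FI_deriv2 hg 0 hεI).log hε
    rw [Pi.mul_apply, h2.deriv]
    field_simp
  have hLd : ∀ k : ℕ, ContDiffAt ℝ k L 0 := fun k => (FI_contDiffAt2 hg k 0).log h0
  have hdL : ContDiffAt ℝ n (deriv L) 0 := by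
    have h2 : (fun ε => FI g 1 ε / FI g 0 ε) =ᶠ[𝓝 0] deriv L := by
      filter_upwards [hne, hI] with ε hε hεI
      have h2 : HasDerivAt L (FI g 1 ε / FI g 0 ε) ε := (FI_deriv2 hg 0 hεI).log hε
      rw [h2.deriv]
    exact ((FI_contDiffAt2 hg n 1).div (FI_contDiffAt2 hg n 0) h0).congr_of_eventuallyEq h2.symm
  have h3 : iteratedDeriv n (FI g 1) 0 = iteratedDeriv n (FI g 0 * deriv L) 0 := h1.iteratedDeriv_eq n
  rw [FI_iterated2 hg n 1 0 zero_mem, iteratedDeriv_mul (FI_contDiffAt2 hg n 0) hdL, ← Finset.sum_range_reflect,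
    add_comm 1 n] at h3
  rw [h3]
  refine Finset.sum_congr rfl fun i hi => ?_
  have hi' : i ≤ n := by have := Finset.mem_range.1 hi; omega
  have e1 : n + 1 - 1 - i = n - i := by omega
  have e2 : n - (n - i) = i := by omega
  rw [e1, e2, Nat.choose_symm hi', FI_iterated2 hg (n - i) 0 0 zero_mem, cum, iteratedDeriv_succ', zero_add, mul_assoc]

open PowerSeries Finset.HasAntidiagonal in
lemma dPM2 {g : ℝ → ℝ} (hg : Nice2 g) (h0 : FI g 0 0 ≠ 0) : PowerSeries.derivative ℝ (PM g) = PM g * PK g := by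
  ext n
  rw [PowerSeries.coeff_derivative, PowerSeries.coeff_mul]
  simp only [PM, PK, PowerSeries.coeff_mk]
  rw [cum_rec2 hg h0 n, Finset.Nat.sum_antidiagonal_eq_sum_range_succ
    (fun i j => FI g i 0 / i.factorial * (cum g (j + 1) / j.factorial)),
    ← Finset.sum_range_reflect, Finset.sum_div, Finset.sum_mul]
  refine Finset.sum_congr rfl fun i hi => ?_
  have hi' : i ≤ n := by have := Finset.mem_range.1 hi; omega
  have e1 : n + 1 - 1 - i = n - i := by omega
  have e2 : n - (n - i) = i := by omega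
  rw [e1, e2, Nat.factorial_succ, Nat.choose_symm hi']
  have h3 : (n.choose i : ℝ) * i.factorial * (n - i).factorial = n.factorial := by
    exact_mod_cast Nat.choose_mul_factorial_mul_factorial hi'
  have h4 : (n.factorial : ℝ) ≠ 0 := by positivity
  have h5 : (i.factorial : ℝ) ≠ 0 := by positivity
  have h6 : ((n - i).factorial : ℝ) ≠ 0 := by positivity
  have h7 : ((n : ℝ) + 1) ≠ 0 := by positivity
  push_cast
  field_simp
  linear_combination (FI g i 0 * cum g (n - i + 1)) * h3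

end Pool.Agent.W5h65.NC
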