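import Pool.Agent.W5h65.GS.K2

/-!
# Differential ideals, version with semi-invariants of the coefficient ring
-/

set_option autoImplicit false
set_option linter.unusedSectionVars false

open MvPolynomial

namespace Pool.Agent.W5h65.GS

namespace Letters

variable {V Λ : Type} (S : Letters V Λ)

section

variable [Fintype Λ] {A : Type} [CommRing A] [Algebra ℚ A] (D : Derivation ℚ A A) (u : Λ → A)

variable [Countable V]

/-- differential ideals which avoid the semi-invariants are trivial -/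
theorem triv2 [Nontrivial A] (Z : Set (A × ℚ)) (hZ0 : ∀ p ∈ Z, p.1 ≠ 0)
    (hZD : ∀ p ∈ Z, D p.1 = p.2 • p.1)
    (H1 : ∀ I : Ideal A, I ≠ ⊥ → (∀ a ∈ I, D a ∈ I) → ∃ p ∈ Z, p.1 ∈ I)
    (H2 : ∀ p ∈ Z, ∀ a, D a = p.2 • a → ∃ r : ℚ, a = r • p.1)
    (H3 : ∀ p ∈ Z, ∀ (c : Λ → ℚ) (h : A), (∑ l, algebraMap ℚ A (c l) * u l) * p.1 = D h - p.2 • h → c = 0)
    (K2 : ∀ P : MvPolynomial V ℚ, (∀ l, S.dl ℚ l P = 0) → ∃ r, P = C r)
    (J : Ideal (MvPolynomial V A)) (hJ : ∀ P ∈ J, S.δ D u P ∈ J) (h1 : ∀ p ∈ Z, C p.1 ∉ J) : J = ⊥ := by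
  classical
  by_contra hne
  obtain ⟨P, hP, hP0⟩ := Submodule.exists_mem_ne_zero_of_ne_bot hne
  let _ : Encodable (V →₀ ℕ) := Encodable.ofCountable _
  set key : (V →₀ ℕ) → ℕ ×ₗ ℕ := fun s => toLex (S.wt s, Encodable.encode s) with hkey
  have key_inj : Function.Injective key := by
    intro s t h
    exact Encodable.encode_injective (congrArg Prod.snd (toLex.injective h))
  have key_lt : ∀ s t, S.wt s < S.wt t → key s < key t := by
    intro s t h
    rw [Prod.Lex.lt_iff]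
    exact Or.inl h
  have key_le : ∀ s t, key s ≤ key t → S.wt s ≤ S.wt t := by
    intro s t h
    by_contra hcon
    push Not at hcon
    exact absurd h (not_le.2 (key_lt t s hcon))
  -- minimal leading monomial
  set K : Set (ℕ ×ₗ ℕ) := {k | ∃ s P, P ∈ J ∧ coeff s P ≠ 0 ∧ (∀ t, coeff t P ≠ 0 → key t ≤ key s) ∧ key s = k} with hK
  have hmax : ∀ P : MvPolynomial V A, P ≠ 0 → ∃ s, coeff s P ≠ 0 ∧ ∀ t, coeff t P ≠ 0 → key t ≤ key s := by
    intro P hP0
    obtain ⟨s, hs, hs'⟩ := Finset.exists_max_image P.support key (support_nonempty.2 hP0)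
    exact ⟨s, mem_support_iff.1 hs, fun t ht => hs' t (mem_support_iff.2 ht)⟩
  have hKne : K.Nonempty := by
    obtain ⟨s, hs, hs'⟩ := hmax P hP0
    exact ⟨key s, s, P, hP, hs, hs', rfl⟩
  have hwf : WellFounded (fun a b : ℕ ×ₗ ℕ => a < b) := IsWellFounded.wf
  obtain ⟨k₀, ⟨s₀, P₀, hP₀, hP₀c, hP₀m, rfl⟩, hmin⟩ := hwf.has_min K hKne
  have claimA : ∀ Q ∈ J, (∀ t, coeff t Q ≠ 0 → key t < key s₀) → Q = 0 := by
    intro Q hQ hlt
    by_contra hQ0
    obtain ⟨s, hs, hs'⟩ := hmax Q hQ0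
    exact hmin (key s) ⟨s, Q, hQ, hs, hs', rfl⟩ (hlt s hs)
  have hlow : ∀ Q : MvPolynomial V A, (∀ t, coeff t Q ≠ 0 → key t ≤ key s₀) → ∀ s, ∀ l,
      coeff s (S.dl A l Q) ≠ 0 → S.wt s < S.wt s₀ := by
    intro Q hQ s l h
    obtain ⟨t, ht, hts⟩ := S.dl_coeff l Q s h
    have := key_le _ _ (hQ t ht)
    omega
  have hδ0 : ∀ Q : MvPolynomial V A, (∀ t, coeff t Q ≠ 0 → key t ≤ key s₀) → ∀ s, S.wt s = S.wt s₀ →
      coeff s (S.δ D u Q) = D (coeff s Q) := by
    intro Q hQ s hs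
    rw [coeff_δ, Finset.sum_eq_zero, add_zero]
    intro l _
    by_contra hcon
    have h2 : coeff s (S.dl A l Q) ≠ 0 := fun h0 => hcon (by rw [h0, mul_zero])
    have := hlow Q hQ s l h2
    omega
  have hδ1 : ∀ Q : MvPolynomial V A, (∀ t, coeff t Q ≠ 0 → key t ≤ key s₀) →
      ∀ t, coeff t (S.δ D u Q) ≠ 0 → key t ≤ key s₀ := by
    intro Q hQ t ht
    rw [coeff_δ] at ht
    by_cases h2 : coeff t Q = 0
    · rw [h2, map_zero, zero_add] at ht
      obtain ⟨l, _, hl⟩ := Finset.exists_ne_zero_of_sum_ne_zero ht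
      have h3 : coeff t (S.dl A l Q) ≠ 0 := fun h0 => hl (by rw [h0, mul_zero])
      exact (key_lt _ _ (hlow Q hQ t l h3)).le
    · exact hQ t h2
  -- the ideal of leading coefficients
  let I : Ideal A :=
    { carrier := {a | ∃ Q ∈ J, (∀ t, coeff t Q ≠ 0 → key t ≤ key s₀) ∧ coeff s₀ Q = a}
      zero_mem' := ⟨0, J.zero_mem, fun t ht => absurd (coeff_zero t) ht, coeff_zero _⟩
      add_mem' := by
        rintro a b ⟨Q, hQ, hQm, rfl⟩ ⟨Q', hQ', hQm', rfl⟩
        refine ⟨Q + Q', J.add_mem hQ hQ', fun t ht => ?_, coeff_add _ _ _⟩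
        rw [coeff_add] at ht
        by_cases h2 : coeff t Q = 0
        · rw [h2, zero_add] at ht
          exact hQm' t ht
        · exact hQm t h2
      smul_mem' := by
        rintro c a ⟨Q, hQ, hQm, rfl⟩
        refine ⟨C c * Q, J.mul_mem_left _ hQ, fun t ht => ?_, coeff_C_mul _ _ _⟩
        rw [coeff_C_mul] at ht
        exact hQm t fun h0 => ht (by rw [h0, mul_zero]) }
  have hI0 : I ≠ ⊥ := by
    intro h0
    have h2 : coeff s₀ P₀ ∈ I := ⟨P₀, hP₀, hP₀m, rfl⟩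
    rw [h0, Submodule.mem_bot] at h2
    exact hP₀c h2
  have hID : ∀ a ∈ I, D a ∈ I := by
    rintro a ⟨Q, hQ, hQm, rfl⟩
    exact ⟨S.δ D u Q, hJ Q hQ, hδ1 Q hQm, hδ0 Q hQm s₀ rfl⟩
  obtain ⟨⟨a, e⟩, hpZ, hpI⟩ := H1 I hI0 hID
  simp only at hpI
  obtain ⟨Q, hQ, hQm, hQ1⟩ := hpI
  have ha0 : a ≠ 0 := hZ0 _ hpZ
  have hDa : D a = e • a := hZD _ hpZ
  have heC : ∀ x : A, e • x = algebraMap ℚ A e * x := fun x => Algebra.smul_def e x
  have hδQ : S.δ D u Q = C (algebraMap ℚ A e) * Q := by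
    rw [← sub_eq_zero]
    refine claimA _ (J.sub_mem (hJ Q hQ) (J.mul_mem_left _ hQ)) fun t ht => ?_
    rw [coeff_sub, coeff_C_mul] at ht
    refine lt_of_le_of_ne ?_ fun heq => ?_
    · by_cases h2 : coeff t Q = 0
      · rw [h2, mul_zero, sub_zero] at ht
        exact hδ1 Q hQm t ht
      · exact hQm t h2
    · have h2 := key_inj heq
      rw [h2, hδ0 Q hQm s₀ rfl, hQ1, hDa, heC, sub_self] at ht
      exact ht rfl
  -- the top part is a rational multiple of `a`
  have htop : ∀ t, ∃ r : ℚ, S.wt t = S.wt s₀ → coeff t Q = r • a := by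
    intro t
    by_cases ht : S.wt t = S.wt s₀
    · have h2 := hδ0 Q hQm t ht
      rw [hδQ, coeff_C_mul, ← heC] at h2
      obtain ⟨r, hr⟩ := H2 _ hpZ _ h2.symm
      exact ⟨r, fun _ => hr⟩
    · exact ⟨0, fun h => absurd h ht⟩
  choose r hr using htop
  set q : MvPolynomial V ℚ := ∑ t ∈ Q.support.filter (fun t => S.wt t = S.wt s₀), monomial t (r t) with hq
  have hqc : ∀ t, algebraMap ℚ A (coeff t q) * a = if S.wt t = S.wt s₀ then coeff t Q else 0 := by
    intro t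
    rw [hq, coeff_sum]
    simp only [coeff_monomial]
    rw [Finset.sum_ite_eq']
    by_cases h2 : t ∈ Q.support.filter (fun t => S.wt t = S.wt s₀)
    · rw [if_pos h2, if_pos (Finset.mem_filter.1 h2).2, hr t (Finset.mem_filter.1 h2).2, Algebra.smul_def]
    · rw [if_neg h2, map_zero, zero_mul]
      split_ifs with h3
      · have h4 : t ∉ Q.support := fun h5 => h2 (Finset.mem_filter.2 ⟨h5, h3⟩)
        exact (notMem_support_iff.1 h4).symm
      · rfl
  have hq0 : ∀ l, S.dl ℚ l q = 0 := by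
    have hall : ∀ s, ∀ l, coeff s (S.dl ℚ l q) = 0 := by
      intro s
      by_cases hs : S.wt s + 1 = S.wt s₀
      · have h2 : (∑ l, algebraMap ℚ A (coeff s (S.dl ℚ l q)) * u l) * a = D (-coeff s Q) - e • (-coeff s Q) := by
          have h3 := congrArg (coeff s) hδQ
          rw [coeff_C_mul, coeff_δ] at h3
          have h6 : (∑ l, algebraMap ℚ A (coeff s (S.dl ℚ l q)) * u l) * a = ∑ l, u l * coeff s (S.dl A l Q) := by
            rw [Finset.sum_mul]
            refine Finset.sum_congr rfl fun l _ => ?_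
            have h4 : coeff s (S.dl A l (Q - C a * map (algebraMap ℚ A) q)) = 0 := by
              by_contra hcon
              obtain ⟨t, ht, hts⟩ := S.dl_coeff l _ s hcon
              rw [coeff_sub, coeff_C_mul, coeff_map, mul_comm a, hqc, if_pos (by omega), sub_self] at ht
              exact ht rfl
            rw [map_sub, coeff_sub, Derivation.leibniz, derivation_C, smul_zero, add_zero, smul_eq_mul, coeff_C_mul,
              dl_map, coeff_map, sub_eq_zero] at h4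
            rw [h4]
            ring
          rw [h6, heC, map_neg]
          linear_combination h3
        have h5 := H3 _ hpZ _ _ h2
        exact fun l => congrFun h5 l
      · intro l
        by_contra hcon
        obtain ⟨t, ht, hts⟩ := S.dl_coeff l _ s hcon
        have h6 := hqc t
        rw [if_neg (by omega), ← Algebra.smul_def] at h6
        rcases smul_eq_zero.1 h6 with h7 | h7
        · exact ht h7
        · exact ha0 h7
    intro l
    ext s
    rw [hall, coeff_zero]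
  obtain ⟨r₀, hr₀⟩ := K2 q hq0
  have hs₀ : s₀ = 0 := by
    by_contra hs
    have h2 := hqc s₀
    rw [if_pos rfl, hQ1, hr₀, coeff_C, if_neg (Ne.symm hs), map_zero, zero_mul] at h2
    exact ha0 h2.symm
  have hwt0 : ∀ t, S.wt t = 0 → t = 0 := by
    intro t ht
    ext v
    have := Finsupp.le_weight S.ω (S.hω v) t
    unfold wt at ht
    rw [Finsupp.coe_zero, Pi.zero_apply]
    omega
  have hQC : Q = C a := by
    ext t
    rw [coeff_C]
    split_ifs with h2
    · rw [← h2, ← hs₀, hQ1]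
    · by_contra hcon
      have h3 := key_le _ _ (hQm t hcon)
      rw [hs₀] at h3
      have h4 : S.wt (0 : V →₀ ℕ) = 0 := map_zero _
      rw [h4] at h3
      exact h2 (hwt0 t (by omega)).symm
  rw [hQC] at hQ
  exact h1 _ hpZ hQ

variable {B : Type} [CommRing B]

/-- injectivity of a differential homomorphism -/
theorem inj2 [Nontrivial A] (Z : Set (A × ℚ)) (hZ0 : ∀ p ∈ Z, p.1 ≠ 0)
    (hZD : ∀ p ∈ Z, D p.1 = p.2 • p.1)
    (H1 : ∀ I : Ideal A, I ≠ ⊥ → (∀ a ∈ I, D a ∈ I) → ∃ p ∈ Z, p.1 ∈ I)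
    (H2 : ∀ p ∈ Z, ∀ a, D a = p.2 • a → ∃ r : ℚ, a = r • p.1)
    (H3 : ∀ p ∈ Z, ∀ (c : Λ → ℚ) (h : A), (∑ l, algebraMap ℚ A (c l) * u l) * p.1 = D h - p.2 • h → c = 0)
    (K2 : ∀ P : MvPolynomial V ℚ, (∀ l, S.dl ℚ l P = 0) → ∃ r, P = C r)
    (θ : B →+ B) (hθ : ∀ a b, θ (a * b) = θ a * b + a * θ b) (φ : A →+* B) (x : V → B)
    (hφ : ∀ a, θ (φ a) = φ (D a)) (hφZ : ∀ p ∈ Z, φ p.1 ≠ 0)
    (hx : ∀ i, θ (x i) = ∑ l, φ (u l) * eval₂ φ x (monomial (S.t l i) (algebraMap ℚ A (S.c l i)))) :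
    Function.Injective (eval₂Hom φ x) := by
  have hcomp : ∀ P : MvPolynomial V A, eval₂Hom φ x (S.δ D u P) = θ (eval₂Hom φ x P) := by
    intro P
    induction P using MvPolynomial.induction_on with
    | C a => rw [δ_C, coe_eval₂Hom, eval₂_C, eval₂_C, hφ]
    | add P Q hP hQ => rw [δ_add, map_add, map_add, map_add, hP, hQ]
    | mul_X P i hP =>
      rw [δ_mul_X, map_add, map_mul, hP, map_mul, map_mul, map_sum, hθ, eval₂Hom_X', hx]
      congr 2
      refine Finset.sum_congr rfl fun l _ => ?_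
      rw [map_mul, eval₂Hom_C]
      rfl
  rw [RingHom.injective_iff_ker_eq_bot]
  refine S.triv2 D u Z hZ0 hZD H1 H2 H3 K2 _ (fun P hP => ?_) (fun p hp => ?_)
  · rw [RingHom.mem_ker] at hP ⊢
    rw [hcomp, hP, map_zero]
  · rw [RingHom.mem_ker, eval₂Hom_C]
    exact hφZ p hp

end

end Letters

end Pool.Agent.W5h65.GS
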