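import Pool.Agent.W5h65.GS.Laurent

/-!
# The ring `ℚ[X][w, w⁻¹]`, `w = exp (κ X)`, with the derivation `X d/dX`
-/

set_option autoImplicit false

open Polynomial

namespace Pool.Agent.W5h65.NC

open Pool.Agent.W5h65.GS (LA LA_ext LA_alg)

/-- the Euler derivative of `p w^n`, divided by `w^n` -/
noncomputable def Dx (κ : ℚ) (n : ℤ) (p : ℚ[X]) : ℚ[X] := X * derivative p + C ((n : ℚ) * κ) * X * p

lemma Dx_add (κ : ℚ) (n : ℤ) (p q : ℚ[X]) : Dx κ n (p + q) = Dx κ n p + Dx κ n q := by
  simp only [Dx, map_add]; ring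

lemma Dx_zero (κ : ℚ) (n : ℤ) : Dx κ n 0 = 0 := by simp [Dx]

lemma Dx_mul (κ : ℚ) (n m : ℤ) (p q : ℚ[X]) : Dx κ (n + m) (p * q) = p * Dx κ m q + q * Dx κ n p := by
  simp only [Dx, derivative_mul]
  push_cast
  simp only [add_mul, map_add]
  ring

lemma key0 (a e : ℚ) (ha : a ≠ 0) (p : ℚ[X]) (h : X * derivative p + C a * X * p = C e * p) : p = 0 := by
  by_contra hp
  have h1 := congrArg (fun r => coeff r (p.natDegree + 1)) h
  simp only [coeff_add] at h1
  rw [coeff_X_mul, coeff_derivative, mul_assoc, coeff_C_mul, coeff_X_mul, coeff_C_mul,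
    coeff_eq_zero_of_natDegree_lt (by omega : p.natDegree < p.natDegree + 1), zero_mul, mul_zero, zero_add] at h1
  rcases mul_eq_zero.1 h1 with h2 | h2
  · exact ha h2
  · exact hp (leadingCoeff_eq_zero.1 h2)

lemma key1 (a c : ℚ) (k : ℕ) (p : ℚ[X]) (h : X * derivative p + C a * X * p - C (k : ℚ) * p = C c * X ^ k) : c = 0 := by
  have hz : ∀ j, j < k → coeff p j = 0 := by
    intro j
    induction j with
    | zero =>
      intro hj
      have h1 := congrArg (fun r => coeff r 0) h
      simp only [coeff_sub, coeff_add, coeff_C_mul, mul_assoc, coeff_X_pow] at h1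
      rw [coeff_X_mul_zero, coeff_X_mul_zero, if_neg (by omega), mul_zero, mul_zero, add_zero, zero_sub, neg_eq_zero] at h1
      exact (mul_eq_zero.1 h1).resolve_left (by exact_mod_cast (by omega : k ≠ 0))
    | succ j ih =>
      intro hj
      have h1 := congrArg (fun r => coeff r (j + 1)) h
      simp only [coeff_sub, coeff_add, coeff_C_mul, mul_assoc, coeff_X_pow] at h1
      rw [coeff_X_mul, coeff_X_mul, coeff_derivative, if_neg (by omega), mul_zero, ih (by omega), mul_zero, add_zero] at h1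
      have h2 : coeff p (j + 1) * ((j : ℚ) + 1 - k) = 0 := by linarith
      refine (mul_eq_zero.1 h2).resolve_right ?_
      have : ((j : ℚ) + 1) < k := by exact_mod_cast hj
      intro h3
      linarith
  have h1 := congrArg (fun r => coeff r k) h
  simp only [coeff_sub, coeff_add, coeff_C_mul, mul_assoc, coeff_X_pow, if_true, mul_one] at h1
  cases k with
  | zero =>
    rw [coeff_X_mul_zero, coeff_X_mul_zero] at h1
    simp at h1
    exact h1.symm
  | succ k =>
    rw [coeff_X_mul, coeff_X_mul, coeff_derivative, hz k (by omega)] at h1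
    push_cast at h1
    linarith

lemma key2 (k : ℚ) (p : ℚ[X]) (h : X * derivative p = C k * p) (j : ℕ) (hj : (j : ℚ) ≠ k) : coeff p j = 0 := by
  have h1 := congrArg (fun r => coeff r j) h
  simp only [coeff_C_mul] at h1
  have h2 : coeff (X * derivative p) j = j * coeff p j := by
    cases j with
    | zero => rw [coeff_X_mul_zero]; simp
    | succ j => rw [coeff_X_mul, coeff_derivative]; push_cast; ring
  rw [h2] at h1
  have h3 : ((j : ℚ) - k) * coeff p j = 0 := by linarith
  exact (mul_eq_zero.1 h3).resolve_left (sub_ne_zero.2 hj)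

/-- the derivation `X d/dX` of `ℚ[X][w, w⁻¹]` as a linear map -/
noncomputable def DLx (κ : ℚ) : LA →ₗ[ℚ] LA where
  toFun f := AddMonoidAlgebra.ofCoeff (Finsupp.onFinset f.coeff.support (fun n => Dx κ n (f.coeff n)) (by
    intro n hn
    rw [Finsupp.mem_support_iff]
    intro h0
    apply hn
    rw [h0, Dx_zero]))
  map_add' f g := by
    refine LA_ext fun n => ?_
    simp [Dx_add]
  map_smul' r f := by
    refine LA_ext fun n => ?_
    simp only [Finsupp.onFinset_apply, AddMonoidAlgebra.coeff_smul, Finsupp.smul_apply, RingHom.id_apply, Dx,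
      derivative_smul, mul_smul_comm, smul_add]

lemma DLx_coeff (κ : ℚ) (f : LA) (n : ℤ) : (DLx κ f).coeff n = Dx κ n (f.coeff n) := rfl

lemma DLx_single (κ : ℚ) (n : ℤ) (p : ℚ[X]) : DLx κ (AddMonoidAlgebra.single n p) = AddMonoidAlgebra.single n (Dx κ n p) := by
  refine LA_ext fun m => ?_
  rw [DLx_coeff, AddMonoidAlgebra.coeff_single, AddMonoidAlgebra.coeff_single, Finsupp.single_apply, Finsupp.single_apply]
  split_ifs with h
  · rw [h]
  · rw [Dx_zero]

/-- the derivation `X d/dX` of `ℚ[X][w, w⁻¹]` -/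
noncomputable def DX (κ : ℚ) : Derivation ℚ LA LA :=
  Derivation.mk' (DLx κ) (by
    intro f g
    induction f using AddMonoidAlgebra.induction_linear with
    | zero => simp
    | add f f' hf hf' => rw [add_mul, map_add, hf, hf', map_add]; simp only [smul_eq_mul]; ring
    | single n p =>
      induction g using AddMonoidAlgebra.induction_linear with
      | zero => simp
      | add g g' hg hg' => rw [mul_add, map_add, hg, hg', map_add]; simp only [smul_eq_mul]; ring
      | single m q =>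
        rw [AddMonoidAlgebra.single_mul_single, DLx_single, DLx_single, DLx_single, smul_eq_mul, smul_eq_mul,
          AddMonoidAlgebra.single_mul_single, AddMonoidAlgebra.single_mul_single, Dx_mul, AddMonoidAlgebra.single_add,
          add_comm m n])

lemma DX_coeff (κ : ℚ) (f : LA) (n : ℤ) : (DX κ f).coeff n = Dx κ n (f.coeff n) := rfl

lemma DX_single (κ : ℚ) (n : ℤ) (p : ℚ[X]) : DX κ (AddMonoidAlgebra.single n p) = AddMonoidAlgebra.single n (Dx κ n p) :=
  DLx_single κ n p

/-- the semi-invariants `X^k` -/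
noncomputable def ZX : Set (LA × ℚ) := Set.range fun k : ℕ => (AddMonoidAlgebra.single 0 (X ^ k), (k : ℚ))

lemma smul_coeff (e : ℚ) (f : LA) (n : ℤ) : (e • f).coeff n = C e * f.coeff n := by
  rw [AddMonoidAlgebra.coeff_smul, Finsupp.smul_apply, smul_eq_C_mul]

lemma ZX_ne : ∀ p ∈ ZX, p.1 ≠ 0 := by
  rintro _ ⟨k, rfl⟩ h
  have h1 := congrArg (fun f : LA => f.coeff 0) h
  simp only [AddMonoidAlgebra.coeff_single, Finsupp.single_eq_same, AddMonoidAlgebra.coeff_zero, Finsupp.coe_zero,
    Pi.zero_apply] at h1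
  exact pow_ne_zero _ X_ne_zero h1

lemma ZX_D (κ : ℚ) : ∀ p ∈ ZX, DX κ p.1 = p.2 • p.1 := by
  rintro _ ⟨k, rfl⟩
  simp only
  refine LA_ext fun m => ?_
  rw [DX_single, smul_coeff, AddMonoidAlgebra.coeff_single, AddMonoidAlgebra.coeff_single, Finsupp.single_apply,
    Finsupp.single_apply]
  split_ifs with h
  · rw [Dx]
    simp only [Int.cast_zero, zero_mul, C_0, add_zero]
    cases k with
    | zero => simp
    | succ k =>
      rw [derivative_X_pow, Nat.add_sub_cancel]
      push_cast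
      ring
  · rw [mul_zero]

/-- semi-invariants -/
theorem LX_H2 (κ : ℚ) (hκ : κ ≠ 0) : ∀ p ∈ ZX, ∀ a, DX κ a = p.2 • a → ∃ r : ℚ, a = r • p.1 := by
  rintro _ ⟨k, rfl⟩ a h
  simp only at h ⊢
  have h0 : ∀ n, Dx κ n (a.coeff n) = C (k : ℚ) * a.coeff n := by
    intro n
    rw [← DX_coeff, h, smul_coeff]
  refine ⟨(a.coeff 0).coeff k, LA_ext fun n => ?_⟩
  rw [smul_coeff, AddMonoidAlgebra.coeff_single, Finsupp.single_apply]
  split_ifs with hn
  · rw [← hn]
    have h1 := h0 0
    rw [Dx] at h1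
    simp only [Int.cast_zero, zero_mul, C_0, add_zero] at h1
    ext j
    rw [coeff_C_mul, coeff_X_pow]
    split_ifs with hj
    · rw [hj, mul_one]
    · rw [mul_zero]
      exact key2 _ _ h1 j (by exact_mod_cast hj)
  · rw [mul_zero]
    refine key0 ((n : ℚ) * κ) k ?_ _ (h0 n)
    refine mul_ne_zero ?_ hκ
    exact_mod_cast Ne.symm hn

/-- differential ideals contain a power of `X` -/
theorem LX_H1 (κ : ℚ) (hκ : κ ≠ 0) (I : Ideal LA) (hI : I ≠ ⊥) (hD : ∀ a ∈ I, DX κ a ∈ I) : ∃ p ∈ ZX, p.1 ∈ I := by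
  classical
  obtain ⟨a, ha, ha0⟩ := Submodule.exists_mem_ne_zero_of_ne_bot hI
  set K : Set (ℕ ×ₗ ℕ) := {k | ∃ (f : LA) (n : ℤ), f ∈ I ∧ f.coeff n ≠ 0 ∧
    toLex (f.coeff.support.card, (f.coeff n).support.card) = k} with hK
  have hne : ∀ f : LA, f ≠ 0 → ∃ n, f.coeff n ≠ 0 := by
    intro f hf
    by_contra hcon
    push Not at hcon
    apply hf
    refine LA_ext fun n => ?_
    rw [hcon n]; rfl
  have hKne : K.Nonempty := by
    obtain ⟨n, hn⟩ := hne a ha0
    exact ⟨_, a, n, ha, hn, rfl⟩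
  have hwf : WellFounded (fun a b : ℕ ×ₗ ℕ => a < b) := IsWellFounded.wf
  obtain ⟨k₀, ⟨f, n, hf, hfn, rfl⟩, hmin⟩ := hwf.has_min K hKne
  set e : ℕ := (f.coeff n).natDegree with he
  set g : LA := DX κ f - (AddMonoidAlgebra.single 0 (C ((n : ℚ) * κ) * X) + AddMonoidAlgebra.single 0 (C (e : ℚ))) * f with hg
  have hgI : g ∈ I := I.sub_mem (hD f hf) (I.mul_mem_left _ hf)
  have hgc : ∀ m, g.coeff m = Dx κ (m - n) (f.coeff m) - C (e : ℚ) * f.coeff m := by
    intro m
    rw [hg, ← AddMonoidAlgebra.single_add, AddMonoidAlgebra.coeff_sub, Finsupp.sub_apply, DX_coeff,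
      AddMonoidAlgebra.coeff_single_mul_apply]
    simp only [Dx, neg_zero, zero_add]
    push_cast
    simp only [sub_mul, map_sub]
    ring
  have hgs : ∀ m, g.coeff m ≠ 0 → f.coeff m ≠ 0 := by
    intro m hm h0
    apply hm
    rw [hgc, h0, Dx_zero, mul_zero, sub_zero]
  have hle : g.coeff.support ⊆ f.coeff.support := by
    intro m hm
    rw [Finsupp.mem_support_iff] at hm ⊢
    exact hgs m hm
  have hgn : g.coeff n = X * derivative (f.coeff n) - C (e : ℚ) * f.coeff n := by
    rw [hgc]; simp [Dx]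
  have hgnc : ∀ j, (g.coeff n).coeff j = ((j : ℚ) - e) * (f.coeff n).coeff j := by
    intro j
    rw [hgn, coeff_sub, coeff_C_mul]
    have h2 : coeff (X * derivative (f.coeff n)) j = j * coeff (f.coeff n) j := by
      cases j with
      | zero => rw [coeff_X_mul_zero]; simp
      | succ j => rw [coeff_X_mul, coeff_derivative]; push_cast; ring
    rw [h2]; ring
  have h1 : g.coeff n = 0 := by
    by_contra hcon
    refine hmin _ ⟨g, n, hgI, hcon, rfl⟩ ?_
    rw [Prod.Lex.lt_iff]
    rcases lt_or_eq_of_le (Finset.card_le_card hle) with h2 | h2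
    · exact Or.inl h2
    · refine Or.inr ⟨h2, ?_⟩
      show (g.coeff n).support.card < (f.coeff n).support.card
      refine Finset.card_lt_card ⟨fun j hj => ?_, fun h3 => ?_⟩
      · rw [mem_support_iff] at hj ⊢
        intro h0
        apply hj
        rw [hgnc, h0, mul_zero]
      · have h4 : e ∈ (f.coeff n).support := natDegree_mem_support_of_nonzero hfn
        have h5 := mem_support_iff.1 (h3 h4)
        rw [hgnc, sub_self, zero_mul] at h5
        exact h5 rfl
  have hfm : f.coeff n = C ((f.coeff n).coeff e) * X ^ e := by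
    rw [hgn, sub_eq_zero] at h1
    ext j
    rw [coeff_C_mul, coeff_X_pow]
    split_ifs with hj
    · rw [hj, mul_one]
    · rw [mul_zero]
      exact key2 _ _ h1 j (by exact_mod_cast hj)
  have hg0 : g = 0 := by
    by_contra hcon
    obtain ⟨m, hm⟩ := hne g hcon
    refine hmin _ ⟨g, m, hgI, hm, rfl⟩ ?_
    rw [Prod.Lex.lt_iff]
    left
    show g.coeff.support.card < f.coeff.support.card
    refine Finset.card_lt_card ⟨hle, fun h2 => ?_⟩
    have h3 := h2 (Finsupp.mem_support_iff.2 hfn)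
    rw [Finsupp.mem_support_iff] at h3
    exact h3 h1
  set c : ℚ := (f.coeff n).coeff e with hc
  have hc0 : c ≠ 0 := by
    intro h0
    apply hfn
    rw [hfm, h0, C_0, zero_mul]
  have hf' : f = AddMonoidAlgebra.single n (C c * X ^ e) := by
    refine LA_ext fun m => ?_
    rw [AddMonoidAlgebra.coeff_single, Finsupp.single_apply]
    split_ifs with hm
    · rw [← hm]; exact hfm
    · have h2 := hgc m
      rw [hg0, AddMonoidAlgebra.coeff_zero, Finsupp.zero_apply] at h2
      refine key0 (((m - n : ℤ) : ℚ) * κ) e (mul_ne_zero ?_ hκ) _ (sub_eq_zero.1 h2.symm)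
      exact_mod_cast sub_ne_zero.2 (Ne.symm hm)
  refine ⟨_, ⟨e, rfl⟩, ?_⟩
  have h4 : (AddMonoidAlgebra.single 0 (X ^ e) : LA) = AddMonoidAlgebra.single (-n) (C c⁻¹) * f := by
    rw [hf', AddMonoidAlgebra.single_mul_single, neg_add_cancel, ← mul_assoc, ← C_mul, inv_mul_cancel₀ hc0, C_1, one_mul]
  simp only
  rw [h4]
  exact I.mul_mem_left _ hf

/-- linear combinations of distinct powers of `w` are no derivatives -/
theorem LX_H3 (κ : ℚ) {Λ : Type} [Fintype Λ] (e : Λ → ℤ) (γ : Λ → ℚ) (he : Function.Injective e)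
    (hγ : ∀ l, γ l ≠ 0) : ∀ p ∈ ZX, ∀ (c : Λ → ℚ) (h : LA),
    (∑ l, algebraMap ℚ LA (c l) * AddMonoidAlgebra.single (e l) (C (γ l))) * p.1 = DX κ h - p.2 • h → c = 0 := by
  classical
  rintro _ ⟨k, rfl⟩ c h hc
  simp only at hc
  funext l₀
  have h1 := congrArg (fun f : LA => f.coeff (e l₀)) hc
  simp only [Finset.sum_mul] at h1
  rw [AddMonoidAlgebra.coeff_sub, Finsupp.sub_apply, DX_coeff, smul_coeff, AddMonoidAlgebra.coeff_sum,
    Finsupp.finsetSum_apply, Finset.sum_eq_single l₀] at h1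
  · rw [LA_alg, AddMonoidAlgebra.single_mul_single, AddMonoidAlgebra.single_mul_single, zero_add, add_zero, ← C_mul,
      AddMonoidAlgebra.coeff_single, Finsupp.single_eq_same, Dx] at h1
    have h2 := key1 _ _ k _ h1.symm
    exact (mul_eq_zero.1 h2).resolve_right (hγ l₀)
  · intro l _ hl
    rw [LA_alg, AddMonoidAlgebra.single_mul_single, AddMonoidAlgebra.single_mul_single, zero_add, add_zero,
      AddMonoidAlgebra.coeff_single, Finsupp.single_apply, if_neg]
    intro h2
    exact hl (he h2)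
  · intro h2; exact absurd (Finset.mem_univ _) h2

end Pool.Agent.W5h65.NC
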