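import Pool.Agent.W5h65.GS.Ind

/-!
# The series `Y_n` and `V_n`: coefficients of `1F1(-ε; 1; -x)` and `1F1(1-ε; 1; -x)` in powers of `ε`
-/

set_option autoImplicit false

open PowerSeries

namespace Pool.Agent.W5h65.NC

open Pool.Agent.Y113 Pool.Agent.R352.E
open Pool.Agent.W5h65.GS (es es_zero es_zero_right es_bound es_int)

/-- coefficients of `Y_n` -/
def Ya : ℕ → ℕ → ℚ
  | 0, 0 => 1
  | 0, (_ + 1) => 0
  | (_ + 1), 0 => 0
  | (n + 1), (k + 1) => (-1) ^ (n + 1) * es n k / ((k : ℚ) + 1)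

/-- coefficients of `V_n` -/
def Va' (n k : ℕ) : ℚ := (-1) ^ n * es n k

/-- `Y_n (c X)` -/
noncomputable def YS (c : ℚ) (n : ℕ) : ℚ⟦X⟧ := PowerSeries.mk fun k => Ya n k * ((-c) ^ k / k.factorial)

/-- `V_n (c X)` -/
noncomputable def VS (c : ℚ) (n : ℕ) : ℚ⟦X⟧ := PowerSeries.mk fun k => Va' n k * ((-c) ^ k / k.factorial)

lemma coeff_YS (c : ℚ) (n k : ℕ) : coeff k (YS c n) = Ya n k * ((-c) ^ k / k.factorial) := by rw [YS, coeff_mk]
lemma coeff_VS (c : ℚ) (n k : ℕ) : coeff k (VS c n) = Va' n k * ((-c) ^ k / k.factorial) := by rw [VS, coeff_mk]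

lemma YS_zero (c : ℚ) : YS c 0 = 1 := by
  ext k
  rw [coeff_YS, coeff_one]
  cases k with
  | zero => simp [Ya]
  | succ k => simp [Ya]

lemma VS_zero (m q : ℕ) : VS ((m : ℚ) / q) 0 = wS q ^ m := by
  ext k
  rw [coeff_VS, coeff_wS_pow, Va', es_zero, neg_div]
  simp

lemma es_succ (n k : ℕ) : es (n + 1) (k + 1) = es (n + 1) k + es n k / ((k : ℚ) + 1) := rfl

lemma Va_zero (n : ℕ) : Va' n 0 = Ya n 0 := by
  cases n with
  | zero => simp [Va', Ya, es_zero]
  | succ n => simp [Va', Ya, es_zero_right]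

/-- `Ya n (k+1) - Va' n (k+1)` -/
lemma YV (n k : ℕ) : Ya n (k + 1) - Va' n (k + 1) = (-1) ^ (n + 1) * es n k := by
  cases n with
  | zero => simp [Ya, Va', es_zero]
  | succ n =>
    rw [Ya, Va', es_succ]
    ring

lemma deriv_YS (c : ℚ) (n : ℕ) : X * d⁄dX ℚ (YS c (n + 1)) = YS c n - VS c n := by
  ext k
  rw [map_sub, coeff_YS, coeff_VS]
  cases k with
  | zero => rw [coeff_zero_X_mul, Va_zero]; ring
  | succ k =>
    rw [coeff_succ_X_mul, coeff_derivative, coeff_YS, ← sub_mul, YV, Ya]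
    have : ((k : ℚ) + 1) ≠ 0 := by positivity
    field_simp

lemma deriv_VS (c : ℚ) (n : ℕ) : X * d⁄dX ℚ (VS c (n + 1)) = -(C c * X * VS c (n + 1)) + (YS c n - VS c n) := by
  ext k
  rw [map_add, map_neg, map_sub, coeff_YS, coeff_VS, mul_assoc, coeff_C_mul]
  cases k with
  | zero => rw [coeff_zero_X_mul, coeff_zero_X_mul, Va_zero]; ring
  | succ k =>
    rw [coeff_succ_X_mul, coeff_succ_X_mul, coeff_derivative, coeff_VS, coeff_VS, ← sub_mul, YV, Va', Va', es_succ,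
      Nat.factorial_succ, pow_succ (-c)]
    have h1 : ((k : ℚ) + 1) ≠ 0 := by positivity
    have h2 : (k.factorial : ℚ) ≠ 0 := by exact_mod_cast k.factorial_ne_zero
    push_cast
    field_simp
    ring

/-! ## E-functions -/

lemma EF_gen (a : ℕ → ℚ) (J m q : ℕ) (hq : 1 ≤ q) (h1 : ∀ k, |a k| ≤ 2 ^ k)
    (h2 : ∀ n k, k ≤ n → ∃ z : ℤ, (Nat.lcmUpto n : ℚ) ^ J * a k = z) :
    EF (PowerSeries.mk fun k => a k * ((-((m : ℚ) / q)) ^ k / k.factorial)) := by
  have hq1 : (1 : ℝ) ≤ q := by exact_mod_cast hq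
  have hq0 : (q : ℚ) ≠ 0 := by exact_mod_cast (by omega : q ≠ 0)
  have hm : (0 : ℝ) ≤ m := by positivity
  have hcf : ∀ k, cf k (PowerSeries.mk fun k => a k * ((-((m : ℚ) / q)) ^ k / k.factorial)) =
      a k * (-((m : ℚ) / q)) ^ k := by
    intro k
    rw [cf, coeff_mk]
    have : (k.factorial : ℚ) ≠ 0 := by exact_mod_cast k.factorial_ne_zero
    field_simp
  set C : ℝ := 2 * (m + 1) * q * (2 ^ 8) ^ J with hC
  have hb1 : (1 : ℝ) ≤ (2 ^ 8 : ℝ) ^ J := one_le_pow₀ (by norm_num)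
  have hmq : (1 : ℝ) ≤ 2 * (m + 1) * q := one_le_mul_of_one_le_of_one_le (by linarith) hq1
  have hC1 : 1 ≤ C := one_le_mul_of_one_le_of_one_le hmq hb1
  refine ⟨C, hC1, fun k => ?_, fun n => ⟨q ^ n * Nat.lcmUpto n ^ J, ?_, ?_, fun k hk => ?_⟩⟩
  · rw [hcf]
    push_cast
    rw [abs_mul, abs_pow, abs_neg, abs_of_nonneg (by positivity : (0 : ℝ) ≤ (m : ℝ) / q)]
    have e1 : |((a k : ℚ) : ℝ)| ≤ 2 ^ k := by
      have : ((|a k| : ℚ) : ℝ) ≤ ((2 ^ k : ℚ) : ℝ) := by exact_mod_cast h1 k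
      push_cast at this
      exact this
    have e2 : ((m : ℝ) / q) ^ k ≤ (m + 1) ^ k := by
      refine pow_le_pow_left₀ (by positivity) ?_ k
      calc (m : ℝ) / q ≤ m := div_le_self hm hq1
        _ ≤ m + 1 := by linarith
    calc |((a k : ℚ) : ℝ)| * ((m : ℝ) / q) ^ k ≤ 2 ^ k * (m + 1) ^ k := mul_le_mul e1 e2 (by positivity) (by positivity)
      _ = (2 * (m + 1)) ^ k := by rw [mul_pow]
      _ ≤ C ^ k := by
        refine pow_le_pow_left₀ (by positivity) ?_ k
        rw [hC, mul_assoc (2 * ((m : ℝ) + 1))]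
        exact le_mul_of_one_le_right (by positivity) (one_le_mul_of_one_le_of_one_le hq1 hb1)
      _ ≤ C ^ (k + 1) := pow_le_pow_right₀ hC1 (by omega)
  · exact Nat.mul_pos (by positivity) (pow_pos (Nat.lcmUpto_pos n) _)
  · push_cast
    have e2 : (Nat.lcmUpto n : ℝ) ^ J ≤ ((2 ^ 8 : ℝ) ^ J) ^ n := by
      rw [← pow_mul, mul_comm J n, pow_mul]
      exact pow_le_pow_left₀ (by positivity) (lcm_bound n) J
    calc (q : ℝ) ^ n * (Nat.lcmUpto n : ℝ) ^ J ≤ (2 * (m + 1) * q) ^ n * ((2 ^ 8 : ℝ) ^ J) ^ n := by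
          refine mul_le_mul (pow_le_pow_left₀ (by positivity) ?_ n) e2 (by positivity) (by positivity)
          exact le_mul_of_one_le_left (by positivity) (by linarith)
      _ = C ^ n := by rw [hC, mul_pow (2 * ((m : ℝ) + 1) * q)]
      _ ≤ C ^ (n + 1) := pow_le_pow_right₀ hC1 (by omega)
  · obtain ⟨z, hz⟩ := h2 n k hk
    refine ⟨z * ((-1) ^ k * (m : ℤ) ^ k * (q : ℤ) ^ (n - k)), ?_⟩
    rw [hcf]
    have h3 : (q : ℚ) ^ n = q ^ (n - k) * q ^ k := by rw [← pow_add]; congr 1; omega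
    push_cast
    rw [← hz, h3, neg_pow, div_pow]
    field_simp

lemma es_le (n k : ℕ) : |es n k| ≤ 2 ^ k := by
  have e0 := es_bound n k
  rw [abs_of_nonneg e0.1]
  refine e0.2.trans ?_
  have : k + 1 ≤ 2 ^ k := Nat.lt_two_pow_self
  exact_mod_cast this

lemma EF_VS (n m q : ℕ) (hq : 1 ≤ q) : EF (VS ((m : ℚ) / q) n) := by
  refine EF_gen (Va' n) n m q hq (fun k => ?_) (fun N k hk => ?_)
  · rw [Va', abs_mul, abs_pow, abs_neg, abs_one, one_pow, one_mul]
    exact es_le n k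
  · obtain ⟨z, hz⟩ := es_int N n k hk
    refine ⟨(-1) ^ n * z, ?_⟩
    rw [Va']
    push_cast
    rw [← hz]
    ring

lemma EF_YS (n m q : ℕ) (hq : 1 ≤ q) : EF (YS ((m : ℚ) / q) n) := by
  refine EF_gen (Ya n) n m q hq (fun k => ?_) (fun N k hk => ?_)
  · cases n with
    | zero =>
      cases k with
      | zero => simp [Ya]
      | succ k => simp [Ya]
    | succ n =>
      cases k with
      | zero => simp [Ya]
      | succ k =>
        have hk1 : (1 : ℚ) ≤ (k : ℚ) + 1 := by linarith [show (0 : ℚ) ≤ k by positivity]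
        rw [Ya, abs_div, abs_mul, abs_pow, abs_neg, abs_one, one_pow, one_mul,
          abs_of_nonneg (by positivity : (0 : ℚ) ≤ (k : ℚ) + 1)]
        refine (div_le_self (abs_nonneg _) hk1).trans ((es_le n k).trans ?_)
        exact pow_le_pow_right₀ (by norm_num) (by omega)
  · cases n with
    | zero =>
      cases k with
      | zero => exact ⟨1, by simp [Ya]⟩
      | succ k => exact ⟨0, by simp [Ya]⟩
    | succ n =>
      cases k with
      | zero => exact ⟨0, by simp [Ya]⟩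
      | succ k =>
        obtain ⟨z, hz⟩ := es_int N n k (by omega)
        have hd : k + 1 ∣ Nat.lcmUpto N := Finset.dvd_lcm (f := id) (Finset.mem_Icc.2 ⟨by omega, hk⟩)
        obtain ⟨c, hc⟩ := hd
        refine ⟨(-1) ^ (n + 1) * z * c, ?_⟩
        have h5 : (Nat.lcmUpto N : ℚ) = (k + 1) * c := by rw [hc]; push_cast; ring
        have h6 : (k : ℚ) + 1 ≠ 0 := by positivity
        rw [Ya, pow_succ]
        push_cast
        rw [← hz]
        have h7 : (Nat.lcmUpto N : ℚ) ^ n * (Nat.lcmUpto N : ℚ) * ((-1) ^ (n + 1) * es n k / (k + 1)) =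
            (-1) ^ (n + 1) * ((Nat.lcmUpto N : ℚ) ^ n * es n k) * ((Nat.lcmUpto N : ℚ) / (k + 1)) := by ring
        rw [h7, h5]
        field_simp

/-! ## Kummer's relation -/

/-- `Z_n (c X)`, coefficients of `1F1(1+ε; 1; x)` -/
noncomputable def ZS (c : ℚ) (n : ℕ) : ℚ⟦X⟧ := PowerSeries.mk fun k => es n k * (c ^ k / k.factorial)

lemma coeff_ZS (c : ℚ) (n k : ℕ) : coeff k (ZS c n) = es n k * (c ^ k / k.factorial) := by rw [ZS, coeff_mk]

lemma VS_neg (c : ℚ) (n : ℕ) : VS (-c) n = C ((-1) ^ n) * ZS c n := by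
  ext k
  rw [coeff_C_mul, coeff_VS, coeff_ZS, Va', neg_neg]
  ring

lemma deriv_rescale_exp (a : ℚ) : d⁄dX ℚ (rescale a (exp ℚ)) = C a * rescale a (exp ℚ) :=
  Pool.Agent.W5h65.GS.deriv_rescale_exp a

/-- an equation determines a series up to its constant term -/
lemma eq_of_deriv {f g : ℚ⟦X⟧} (h0 : coeff 0 f = coeff 0 g) (h : X * d⁄dX ℚ f = X * d⁄dX ℚ g) : f = g := by
  ext k
  cases k with
  | zero => exact h0
  | succ k =>
    have h1 := congrArg (coeff (k + 1)) h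
    rw [coeff_succ_X_mul, coeff_succ_X_mul, coeff_derivative, coeff_derivative] at h1
    have : ((k : ℚ) + 1) ≠ 0 := by positivity
    exact mul_right_cancel₀ this h1

/-- the auxiliary series -/
noncomputable def RS (c : ℚ) (n : ℕ) : ℚ⟦X⟧ := PowerSeries.mk fun k => match k with
  | 0 => 0
  | (k + 1) => es n k * (c ^ (k + 1) / (k + 1).factorial)

lemma deriv_ZS (c : ℚ) (n : ℕ) : X * d⁄dX ℚ (ZS c (n + 1)) = C c * X * ZS c (n + 1) + RS c n := by
  ext k
  rw [map_add, mul_assoc, coeff_C_mul, RS, coeff_mk]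
  cases k with
  | zero => rw [coeff_zero_X_mul, coeff_zero_X_mul]; simp
  | succ k =>
    rw [coeff_succ_X_mul, coeff_succ_X_mul, coeff_derivative, coeff_ZS, coeff_ZS, es_succ]
    have h1 : ((k : ℚ) + 1) ≠ 0 := by positivity
    have h2 : (k.factorial : ℚ) ≠ 0 := by exact_mod_cast k.factorial_ne_zero
    simp only [Nat.factorial_succ, pow_succ]
    push_cast
    field_simp

lemma RS_eq (c : ℚ) (n : ℕ) : RS c n = ZS c n - C ((-1) ^ n) * YS (-c) n := by
  ext k
  rw [map_sub, coeff_C_mul, coeff_ZS, coeff_YS, RS, coeff_mk, neg_neg]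
  have hs : ((-1 : ℚ) ^ n) * (-1) ^ n = 1 := by rw [← mul_pow]; norm_num
  cases k with
  | zero =>
    cases n with
    | zero => simp [Ya, es_zero]
    | succ n => simp [Ya, es_zero_right]
  | succ k =>
    cases n with
    | zero => simp [Ya, es_zero]
    | succ n =>
      rw [Ya, es_succ]
      linear_combination (es n k / ((k : ℚ) + 1) * (c ^ (k + 1) / (k + 1).factorial)) * (hs)

/-- **Kummer's relation** `1F1(1+ε; 1; x) = exp(x) 1F1(-ε; 1; -x)` -/
theorem kummer (n : ℕ) : ∀ c : ℚ, ZS c n = rescale c (exp ℚ) * YS c n := by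
  induction n with
  | zero =>
    intro c
    rw [YS_zero, mul_one]
    ext k
    rw [coeff_ZS, es_zero, coeff_rescale, coeff_exp]
    simp [div_eq_mul_inv]
  | succ n ih =>
    intro c
    have hE : ∀ a : ℚ, rescale a (exp ℚ) * rescale (-a) (exp ℚ) = 1 := by
      intro a
      rw [exp_mul_exp_eq_exp_add]
      have : a + -a = 0 := by ring
      rw [this]; simp
    have hB : rescale c (exp ℚ) * VS c n = C ((-1) ^ n) * YS (-c) n := by
      have h1 := VS_neg (-c) n
      rw [neg_neg] at h1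
      rw [h1, ih (-c)]
      linear_combination (C ((-1) ^ n) * YS (-c) n) * (hE c)
    have h2 : rescale (-c) (exp ℚ) * ZS c (n + 1) = YS c (n + 1) := by
      refine eq_of_deriv ?_ ?_
      · rw [coeff_YS, coeff_zero_eq_constantCoeff, map_mul, ← coeff_zero_eq_constantCoeff_apply (ZS c (n + 1)), coeff_ZS]
        simp [Ya, es_zero_right]
      · have h3 := deriv_ZS c n
        rw [Derivation.leibniz, deriv_rescale_exp, deriv_YS, smul_eq_mul, smul_eq_mul]
        have h4 := RS_eq c n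
        have h5 := ih c
        have h6 : C (-c) = -(C c : ℚ⟦X⟧) := by rw [map_neg]
        rw [h6]
        linear_combination (rescale (-c) (exp ℚ)) * h3 + (rescale (-c) (exp ℚ)) * h4 +
          (rescale (-c) (exp ℚ)) * h5 + (rescale (-c) (exp ℚ)) * hB + (YS c n - VS c n) * hE c
    rw [← h2]
    linear_combination (-(ZS c (n + 1))) * hE c

end Pool.Agent.W5h65.NC
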