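import Pool.Agent.W5h65.NC.K2b
import Pool.Agent.W5h65.NC.Lau
import Pool.Agent.W5h65.NC.Ser

/-!
# Algebraic independence of the functions over `ℚ(X)`
-/

set_option autoImplicit false
set_option linter.unusedSectionVars false

open PowerSeries

namespace Pool.Agent.W5h65.NC

open Pool.Agent.R352.E
open Pool.Agent.W5h65.GS (LA Va Letters deriv_unit_zpow deriv_rescale_exp)

/-- the derivation `X d/dX` -/
noncomputable def th : ℚ⟦X⟧ →+ ℚ⟦X⟧ where
  toFun f := X * d⁄dX ℚ f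
  map_zero' := by simp
  map_add' a b := by rw [map_add, mul_add]

lemma th_apply (f : ℚ⟦X⟧) : th f = X * d⁄dX ℚ f := rfl

/-- the unit `exp (-X / q)` -/
noncomputable def uU (q : ℕ) : (ℚ⟦X⟧)ˣ where
  val := rescale (-1 / (q : ℚ)) (exp ℚ)
  inv := rescale (1 / (q : ℚ)) (exp ℚ)
  val_inv := by
    rw [exp_mul_exp_eq_exp_add]
    have : (-1 / (q : ℚ) + 1 / q) = 0 := by ring
    rw [this]; simp
  inv_val := by
    rw [exp_mul_exp_eq_exp_add]
    have : (1 / (q : ℚ) + -1 / q) = 0 := by ring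
    rw [this]; simp

lemma uU_val (q : ℕ) : (uU q : ℚ⟦X⟧) = wS q := by
  rw [wS_eq]; rfl

lemma deriv_uU (q : ℕ) (n : ℤ) : d⁄dX ℚ ((uU q ^ n : (ℚ⟦X⟧)ˣ) : ℚ⟦X⟧) =
    C ((n : ℚ) * (-1 / q)) * ((uU q ^ n : (ℚ⟦X⟧)ˣ) : ℚ⟦X⟧) := by
  rw [deriv_unit_zpow (uU q) (C (-1 / (q : ℚ))) ?_ n]
  · have : (n : ℚ⟦X⟧) = C (n : ℚ) := by simp
    rw [this, map_mul]
  · exact deriv_rescale_exp _

/-- the homomorphism to power series -/
noncomputable def ph (q : ℕ) : LA →+* ℚ⟦X⟧ :=
  AddMonoidAlgebra.liftNCRingHom (Polynomial.coeToPowerSeries.ringHom)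
    ((Units.coeHom ℚ⟦X⟧).comp (zpowersHom (ℚ⟦X⟧)ˣ (uU q))) (fun _ _ => Commute.all _ _)

lemma ph_single (q : ℕ) (n : ℤ) (p : Polynomial ℚ) :
    ph q (AddMonoidAlgebra.single n p) = (p : ℚ⟦X⟧) * ((uU q ^ n : (ℚ⟦X⟧)ˣ) : ℚ⟦X⟧) := by
  rw [ph, AddMonoidAlgebra.liftNCRingHom_single]
  rfl

lemma ph_DX (q : ℕ) (a : LA) : th (ph q a) = ph q (DX (-1 / (q : ℚ)) a) := by
  induction a using AddMonoidAlgebra.induction_linear with
  | zero => simp
  | add f g hf hg => simp only [map_add, hf, hg]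
  | single n p =>
    rw [DX_single, ph_single, ph_single, th_apply, Derivation.leibniz, deriv_uU, smul_eq_mul, smul_eq_mul, derivative_coe, Dx]
    push_cast
    ring

section

variable {ι : Type} [Fintype ι] [DecidableEq ι] (q : ℕ) (m : ι → ℕ)

/-- the functions -/
noncomputable def xx : Va ι → ℚ⟦X⟧
  | (i, Sum.inl n) => YS ((m i : ℚ) / q) (n + 1)
  | (i, Sum.inr n) => ((uU q ^ (-(m i : ℤ)) : (ℚ⟦X⟧)ˣ) : ℚ⟦X⟧) * VS ((m i : ℚ) / q) (n + 1)

/-- exponents of the letters -/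
def ex : Option (ι × Bool) → ℤ
  | none => 0
  | some (i, true) => -(m i : ℤ)
  | some (i, false) => (m i : ℤ)

/-- coefficients of the letters -/
noncomputable def uc (l : Option (ι × Bool)) : LA := AddMonoidAlgebra.single (ex m l) (Polynomial.C 1)

lemma yE_prod (i : ι) (n : ℕ) : ((yE i n).prod fun v k => xx q m v ^ k) = YS ((m i : ℚ) / q) n := by
  cases n with
  | zero => rw [YS_zero]; simp [yE]
  | succ n => simp [yE, xx]

lemma u_cancel (n : ℕ) : ((uU q ^ (-(n : ℤ)) : (ℚ⟦X⟧)ˣ) : ℚ⟦X⟧) * wS q ^ n = 1 := by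
  have : (wS q ^ n : ℚ⟦X⟧) = ((uU q ^ (n : ℤ) : (ℚ⟦X⟧)ˣ) : ℚ⟦X⟧) := by
    rw [← uU_val]; simp
  rw [this, zpow_neg]
  exact Units.inv_mul _

lemma u_cancel' (n : ℕ) : ((uU q ^ (n : ℤ) : (ℚ⟦X⟧)ˣ) : ℚ⟦X⟧) * ((uU q ^ (-(n : ℤ)) : (ℚ⟦X⟧)ˣ) : ℚ⟦X⟧) = 1 := by
  rw [zpow_neg]
  exact Units.mul_inv _

lemma qE_prod (i : ι) (n : ℕ) : ((qE i n).prod fun v k => xx q m v ^ k) =
    ((uU q ^ (-(m i : ℤ)) : (ℚ⟦X⟧)ˣ) : ℚ⟦X⟧) * VS ((m i : ℚ) / q) n := by
  cases n with
  | zero =>
    rw [VS_zero, u_cancel]; simp [qE]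
  | succ n => simp [qE, xx]

/-- a term of the sum over letters -/
lemma term_eq (l : Option (ι × Bool)) (v : Va ι) :
    ph q (uc m l) * MvPolynomial.eval₂ (ph q) (xx q m)
      (MvPolynomial.monomial ((LN (ι := ι)).t l v) (algebraMap ℚ LA ((LN (ι := ι)).c l v))) =
    ((uU q ^ (ex m l) : (ℚ⟦X⟧)ˣ) : ℚ⟦X⟧) * (C ((LN (ι := ι)).c l v) * (((LN (ι := ι)).t l v).prod fun v k => xx q m v ^ k)) := by
  rw [MvPolynomial.eval₂_monomial, uc, ph_single, Pool.Agent.W5h65.GS.LA_alg, ph_single]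
  simp

theorem ev_inj (hq : 1 ≤ q) (hinj : Function.Injective m) (hpos : ∀ i, 1 ≤ m i) :
    Function.Injective (MvPolynomial.eval₂Hom (ph q) (xx q m)) := by
  classical
  have hq0 : (q : ℚ) ≠ 0 := by exact_mod_cast (by omega : q ≠ 0)
  have hκ : (-1 / (q : ℚ)) ≠ 0 := div_ne_zero (by norm_num) hq0
  have he : Function.Injective (ex m) := by
    rintro (_ | ⟨i, b⟩) (_ | ⟨j, b'⟩) h
    · rfl
    · have h2 := hpos j
      cases b' <;> simp only [ex] at h <;> omega
    · have h2 := hpos i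
      cases b <;> simp only [ex] at h <;> omega
    · have h1 := hpos i
      have h2 := hpos j
      cases b <;> cases b' <;> simp only [ex] at h
      · have : m i = m j := by omega
        rw [hinj this]
      · omega
      · omega
      · have : m i = m j := by omega
        rw [hinj this]
  have hH3 : ∀ p ∈ ZX, ∀ (c : Option (ι × Bool) → ℚ) (h : LA),
      (∑ l, algebraMap ℚ LA (c l) * uc m l) * p.1 = DX (-1 / (q : ℚ)) h - p.2 • h → c = 0 :=
    LX_H3 (-1 / (q : ℚ)) (ex m) (fun _ => 1) he (fun _ => one_ne_zero)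
  refine Letters.inj2 (LN (ι := ι)) (DX (-1 / (q : ℚ))) (uc m) ZX ZX_ne (ZX_D _) (LX_H1 _ hκ) (LX_H2 _ hκ)
    hH3 K2 th ?_ (ph q) (xx q m) (fun a => ph_DX q a) ?_ ?_
  · intro a b
    rw [th_apply, th_apply, th_apply, Derivation.leibniz, smul_eq_mul, smul_eq_mul]
    ring
  · rintro _ ⟨k, rfl⟩
    simp only
    rw [ph_single]
    simp
  · intro v
    simp only [term_eq]
    rw [Fintype.sum_option, Fintype.sum_prod_type]
    simp only [Fintype.sum_bool]
    rcases v with ⟨i, n | n⟩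
    · have e0 : ∀ j, (LN (ι := ι)).c (some (j, true)) (i, Sum.inl n) = 0 := fun j => rfl
      have e1 : ∀ j, (LN (ι := ι)).c (some (j, false)) (i, Sum.inl n) = if j = i then -1 else 0 := fun j => rfl
      have e2 : ∀ j, (LN (ι := ι)).t (some (j, false)) (i, Sum.inl n) = qE i n := fun j => rfl
      have e3 : (LN (ι := ι)).c none (i, Sum.inl n) = 1 := rfl
      have e4 : (LN (ι := ι)).t none (i, Sum.inl n) = yE i n := rfl
      simp only [e0, e1, e2, e3, e4]
      rw [Finset.sum_eq_single i]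
      · rw [if_pos rfl, yE_prod, qE_prod, th_apply]
        show X * d⁄dX ℚ (YS ((m i : ℚ) / q) (n + 1)) = _
        rw [deriv_YS]
        simp only [ex, zpow_zero, Units.val_one, map_one, map_zero, map_neg, one_mul, zero_mul, mul_zero, zero_add]
        linear_combination (VS ((m i : ℚ) / q) n) * u_cancel' q (m i)
      · intro j _ hj
        rw [if_neg hj]
        simp
      · intro h; exact absurd (Finset.mem_univ _) h
    · have e0 : ∀ j, (LN (ι := ι)).c (some (j, false)) (i, Sum.inr n) = 0 := fun j => rfl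
      have e1 : ∀ j, (LN (ι := ι)).c (some (j, true)) (i, Sum.inr n) = if j = i then 1 else 0 := fun j => rfl
      have e2 : ∀ j, (LN (ι := ι)).t (some (j, true)) (i, Sum.inr n) = yE i n := fun j => rfl
      have e3 : (LN (ι := ι)).c none (i, Sum.inr n) = -1 := rfl
      have e4 : (LN (ι := ι)).t none (i, Sum.inr n) = qE i n := rfl
      simp only [e0, e1, e2, e3, e4]
      rw [Finset.sum_eq_single i]
      · rw [if_pos rfl, yE_prod, qE_prod, th_apply]
        show X * d⁄dX ℚ (((uU q ^ (-(m i : ℤ)) : (ℚ⟦X⟧)ˣ) : ℚ⟦X⟧) * VS ((m i : ℚ) / q) (n + 1)) = _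
        rw [Derivation.leibniz, deriv_uU, smul_eq_mul, smul_eq_mul]
        simp only [ex, zpow_zero, Units.val_one, map_one, map_zero, map_neg, one_mul, zero_mul, mul_zero, add_zero]
        have h1 := deriv_VS ((m i : ℚ) / q) n
        have h2 : (C (((-(m i : ℤ) : ℤ) : ℚ) * (-1 / (q : ℚ))) : ℚ⟦X⟧) = C ((m i : ℚ) / q) := by
          congr 1; push_cast; ring
        rw [h2]
        linear_combination ((uU q ^ (-(m i : ℤ)) : (ℚ⟦X⟧)ˣ) : ℚ⟦X⟧) * h1
      · intro j _ hj
        rw [if_neg hj]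
        simp
      · intro h; exact absurd (Finset.mem_univ _) h

/-- the family of E-functions -/
noncomputable def ff : Option (Va ι) → ℚ⟦X⟧
  | none => wS q
  | some (i, Sum.inl n) => YS ((m i : ℚ) / q) (n + 1)
  | some (i, Sum.inr n) => VS ((m i : ℚ) / q) (n + 1)

/-- exponential weight -/
def mv : Va ι → ℕ
  | (_, Sum.inl _) => 0
  | (i, Sum.inr _) => m i

lemma ff_xx (v : Va ι) : ff q m (some v) = (uU q : ℚ⟦X⟧) ^ mv m v * xx q m v := by
  rcases v with ⟨i, n | n⟩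
  · simp [ff, mv, xx]
  · simp only [ff, mv, xx]
    rw [uU_val]
    linear_combination (-(VS ((m i : ℚ) / q) (n + 1))) * u_cancel q (m i)

lemma prod_ff_xx (s : Va ι →₀ ℕ) : (s.prod fun v n => ff q m (some v) ^ n) =
    (uU q : ℚ⟦X⟧) ^ (s.sum fun v n => mv m v * n) * s.prod fun v n => xx q m v ^ n := by
  rw [Finsupp.sum, Finsupp.prod, Finsupp.prod, ← Finset.prod_pow_eq_pow_sum, ← Finset.prod_mul_distrib]
  refine Finset.prod_congr rfl fun v _ => ?_
  rw [pow_mul, ← mul_pow, ff_xx]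

lemma mon_option (s : Option (Va ι) →₀ ℕ) :
    mon (ff q m) s = wS q ^ s none * s.some.prod fun v n => ff q m (some v) ^ n := by
  rw [mon, MvPolynomial.aeval_monomial, map_one, one_mul, Finsupp.prod_option_index]
  · rfl
  · intro o; rw [pow_zero]
  · intro o a b; rw [pow_add]

/-- linear independence of the monomials over `ℚ[X]` -/
theorem mon_indep (hq : 1 ≤ q) (hinj : Function.Injective m) (hpos : ∀ i, 1 ≤ m i) :
    LinearIndependent (Polynomial ℚ) (fun s : Option (Va ι) →₀ ℕ => mon (ff q m) s) := by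
  classical
  rw [linearIndependent_iff']
  intro T g hg s₀ hs₀
  set md : (Option (Va ι) →₀ ℕ) → ℕ := fun s => s.some.sum fun v n => mv m v * n with hmd
  set Q : MvPolynomial (Va ι) LA := ∑ s ∈ T, MvPolynomial.monomial s.some
    (AddMonoidAlgebra.single ((s none + md s : ℕ) : ℤ) (g s)) with hQ
  have hQ0 : MvPolynomial.eval₂Hom (ph q) (xx q m) Q = 0 := by
    rw [hQ, map_sum, ← hg]
    refine Finset.sum_congr rfl fun s _ => ?_
    rw [MvPolynomial.coe_eval₂Hom, MvPolynomial.eval₂_monomial, ph_single, Algebra.smul_def]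
    have e1 : algebraMap (Polynomial ℚ) ℚ⟦X⟧ (g s) = (g s : ℚ⟦X⟧) := rfl
    rw [e1, mon_option, ← uU_val]
    have h2 := prod_ff_xx q m s.some
    rw [zpow_natCast, Units.val_pow_eq_pow_val, pow_add]
    linear_combination (-((g s : ℚ⟦X⟧) * (uU q : ℚ⟦X⟧) ^ s none)) * h2
  have hQ1 : Q = 0 := ev_inj q m hq hinj hpos (hQ0.trans (map_zero _).symm)
  have h3 := congrArg (fun P : MvPolynomial (Va ι) LA => (MvPolynomial.coeff s₀.some P).coeff ((s₀ none + md s₀ : ℕ) : ℤ)) hQ1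
  simp only [MvPolynomial.coeff_zero, AddMonoidAlgebra.coeff_zero, Finsupp.coe_zero, Pi.zero_apply] at h3
  rw [hQ, MvPolynomial.coeff_sum, AddMonoidAlgebra.coeff_sum, Finsupp.finsetSum_apply, Finset.sum_eq_single_of_mem s₀ hs₀] at h3
  · rw [MvPolynomial.coeff_monomial, if_pos rfl, AddMonoidAlgebra.coeff_single, Finsupp.single_eq_same] at h3
    exact h3
  · intro s _ hss
    rw [MvPolynomial.coeff_monomial]
    split_ifs with h4
    · rw [AddMonoidAlgebra.coeff_single, Finsupp.single_apply, if_neg]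
      intro h5
      apply hss
      have h6 : md s = md s₀ := by simp only [hmd, h4]
      have h7 : s none = s₀ none := by
        have : (s none + md s) = (s₀ none + md s₀) := by exact_mod_cast h5
        omega
      ext o
      rcases o with _ | v
      · exact h7
      · have := DFunLike.congr_fun h4 v
        simpa using this
    · rfl

end

end Pool.Agent.W5h65.NC
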