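import Pool.Agent.W5h65.NC.Ideal2

/-!
# The letters of the confluent system, and their common constants
-/

set_option autoImplicit false
set_option linter.unusedSectionVars false

open MvPolynomial

namespace Pool.Agent.W5h65.NC

open Pool.Agent.W5h65.GS (Letters Va deriv_single const_of_pderiv)

section

variable {ι : Type}

/-- the exponent of `y_n` -/
noncomputable def yE (i : ι) : ℕ → (Va ι →₀ ℕ)
  | 0 => 0
  | (n + 1) => Finsupp.single (i, Sum.inl n) 1

/-- the exponent of `q_n` -/
noncomputable def qE (i : ι) : ℕ → (Va ι →₀ ℕ)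
  | 0 => 0
  | (n + 1) => Finsupp.single (i, Sum.inr n) 1

/-- the weights -/
def om : Va ι → ℕ
  | (_, Sum.inl n) => n + 1
  | (_, Sum.inr n) => n + 1

lemma weight_yE (i : ι) (n : ℕ) : Finsupp.weight om (yE i n) = n := by
  cases n with
  | zero => simp [yE]
  | succ n => rw [yE, Finsupp.weight_single]; simp [om]

lemma weight_qE (i : ι) (n : ℕ) : Finsupp.weight om (qE i n) = n := by
  cases n with
  | zero => simp [qE]
  | succ n => rw [qE, Finsupp.weight_single]; simp [om]

variable [DecidableEq ι]

/-- the letters -/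
noncomputable def LN : Letters (Va ι) (Option (ι × Bool)) where
  ω := om
  c l v := match l, v with
    | none, (_, Sum.inl _) => 1
    | none, (_, Sum.inr _) => -1
    | some (i, true), (j, Sum.inr _) => if i = j then 1 else 0
    | some (i, false), (j, Sum.inl _) => if i = j then -1 else 0
    | some (_, true), (_, Sum.inl _) => 0
    | some (_, false), (_, Sum.inr _) => 0
  t l v := match l, v with
    | none, (j, Sum.inl n) => yE j n
    | none, (j, Sum.inr n) => qE j n
    | some (_, true), (j, Sum.inr n) => yE j n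
    | some (_, false), (j, Sum.inl n) => qE j n
    | some (_, true), (_, Sum.inl _) => 0
    | some (_, false), (_, Sum.inr _) => 0
  hω := by
    rintro ⟨i, n | n⟩ <;> simp [om]
  h := by
    rintro (_ | ⟨i, b⟩) ⟨j, n | n⟩ hc
    · show Finsupp.weight om (yE j n) + 1 = om (j, Sum.inl n)
      rw [weight_yE]; rfl
    · show Finsupp.weight om (qE j n) + 1 = om (j, Sum.inr n)
      rw [weight_qE]; rfl
    · cases b
      · show Finsupp.weight om (qE j n) + 1 = om (j, Sum.inl n)
        rw [weight_qE]; rfl
      · simp at hc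
    · cases b
      · simp at hc
      · show Finsupp.weight om (yE j n) + 1 = om (j, Sum.inr n)
        rw [weight_yE]; rfl

/-- `y_n` -/
noncomputable def py (i : ι) : ℕ → MvPolynomial (Va ι) ℚ
  | 0 => 1
  | (n + 1) => X (i, Sum.inl n)

/-- `q_n` -/
noncomputable def pq (i : ι) : ℕ → MvPolynomial (Va ι) ℚ
  | 0 => 1
  | (n + 1) => X (i, Sum.inr n)

/-- shifts -/
noncomputable def sh (g : ℕ → MvPolynomial (Va ι) ℚ) (k n : ℕ) : MvPolynomial (Va ι) ℚ := if k ≤ n then g (n - k) else 0

lemma sh_sh (g : ℕ → MvPolynomial (Va ι) ℚ) (k m n : ℕ) (hk : m ≤ n) : sh g k (n - m) = sh g (k + m) n := by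
  unfold sh
  by_cases h : k + m ≤ n
  · rw [if_pos h, if_pos (by omega)]
    congr 1; omega
  · rw [if_neg h, if_neg (by omega)]

/-- the operators `E_k = ∑ y_j ∂_{q_{j+k}}` -/
noncomputable def Ek (i : ι) (k : ℕ) : Derivation ℚ (MvPolynomial (Va ι) ℚ) (MvPolynomial (Va ι) ℚ) :=
  mkDerivation ℚ fun v => match v with
    | (j, Sum.inr n) => if i = j then sh (py i) k (n + 1) else 0
    | (_, Sum.inl _) => 0

/-- the operators `F_k = ∑ q_j ∂_{y_{j+k}}` -/
noncomputable def Fk (i : ι) (k : ℕ) : Derivation ℚ (MvPolynomial (Va ι) ℚ) (MvPolynomial (Va ι) ℚ) :=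
  mkDerivation ℚ fun v => match v with
    | (j, Sum.inl n) => if i = j then sh (pq i) k (n + 1) else 0
    | (_, Sum.inr _) => 0

/-- the operator of the letter `1` -/
noncomputable def Hn : Derivation ℚ (MvPolynomial (Va ι) ℚ) (MvPolynomial (Va ι) ℚ) :=
  mkDerivation ℚ fun v => match v with
    | (j, Sum.inl n) => py j n
    | (j, Sum.inr n) => -pq j n

lemma mono_yE (i : ι) (n : ℕ) (a : ℚ) : monomial (yE i n) a = C a * py i n := by
  cases n with
  | zero => simp [yE, py]
  | succ n => rw [yE, py, X, C_mul_monomial, mul_one]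

lemma mono_qE (i : ι) (n : ℕ) (a : ℚ) : monomial (qE i n) a = C a * pq i n := by
  cases n with
  | zero => simp [qE, pq]
  | succ n => rw [qE, pq, X, C_mul_monomial, mul_one]

lemma dl_none : (LN (ι := ι)).dl ℚ none = Hn := by
  apply derivation_ext
  rintro ⟨j, n | n⟩
  · rw [Letters.dl_X, Hn, mkDerivation_X]
    show monomial (yE j n) (algebraMap ℚ ℚ 1) = py j n
    rw [map_one, mono_yE, C_1, one_mul]
  · rw [Letters.dl_X, Hn, mkDerivation_X]
    show monomial (qE j n) (algebraMap ℚ ℚ (-1)) = -pq j n
    rw [mono_qE]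
    simp

lemma dl_true (i : ι) : (LN (ι := ι)).dl ℚ (some (i, true)) = Ek i 1 := by
  apply derivation_ext
  rintro ⟨j, n | n⟩
  · rw [Letters.dl_X, Ek, mkDerivation_X]
    show monomial 0 (algebraMap ℚ ℚ 0) = 0
    simp
  · rw [Letters.dl_X, Ek, mkDerivation_X]
    show monomial (yE j n) (algebraMap ℚ ℚ (if i = j then 1 else 0)) = if i = j then sh (py i) 1 (n + 1) else 0
    rw [mono_yE]
    by_cases h : i = j
    · subst h
      simp [sh]
    · simp [h]

lemma dl_false (i : ι) : (LN (ι := ι)).dl ℚ (some (i, false)) = -Fk i 1 := by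
  apply derivation_ext
  rintro ⟨j, n | n⟩
  · rw [Letters.dl_X, Derivation.neg_apply, Fk, mkDerivation_X]
    show monomial (qE j n) (algebraMap ℚ ℚ (if i = j then -1 else 0)) = -if i = j then sh (pq i) 1 (n + 1) else 0
    rw [mono_qE]
    by_cases h : i = j
    · subst h
      simp [sh]
    · simp [h]
  · rw [Letters.dl_X, Derivation.neg_apply, Fk, mkDerivation_X]
    show monomial 0 (algebraMap ℚ ℚ 0) = -0
    simp

lemma Hn_py (i : ι) (n : ℕ) : Hn (py i n) = sh (py i) 1 n := by
  cases n with
  | zero => simp [py, sh]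
  | succ n => rw [py, Hn, mkDerivation_X]; simp [sh]

lemma Hn_pq (i : ι) (n : ℕ) : Hn (pq i n) = -sh (pq i) 1 n := by
  cases n with
  | zero => simp [pq, sh]
  | succ n => rw [pq, Hn, mkDerivation_X]; simp [sh]

lemma Ek_py (i j : ι) (k n : ℕ) : Ek i k (py j n) = 0 := by
  cases n with
  | zero => simp [py]
  | succ n => rw [py, Ek, mkDerivation_X]

lemma Ek_pq (i : ι) (k n : ℕ) (hk : 1 ≤ k) : Ek i k (pq i n) = sh (py i) k n := by
  cases n with
  | zero => rw [pq, Derivation.map_one_eq_zero, sh, if_neg (by omega)]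
  | succ n => rw [pq, Ek, mkDerivation_X]; simp

lemma Ek_pq_ne {i j : ι} (h : i ≠ j) (k n : ℕ) : Ek i k (pq j n) = 0 := by
  cases n with
  | zero => simp [pq]
  | succ n => rw [pq, Ek, mkDerivation_X]; simp [h]

lemma Fk_pq (i j : ι) (k n : ℕ) : Fk i k (pq j n) = 0 := by
  cases n with
  | zero => simp [pq]
  | succ n => rw [pq, Fk, mkDerivation_X]

lemma Fk_py (i : ι) (k n : ℕ) (hk : 1 ≤ k) : Fk i k (py i n) = sh (pq i) k n := by
  cases n with
  | zero => rw [py, Derivation.map_one_eq_zero, sh, if_neg (by omega)]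
  | succ n => rw [py, Fk, mkDerivation_X]; simp

lemma Fk_py_ne {i j : ι} (h : i ≠ j) (k n : ℕ) : Fk i k (py j n) = 0 := by
  cases n with
  | zero => simp [py]
  | succ n => rw [py, Fk, mkDerivation_X]; simp [h]

lemma br1 (i : ι) (k : ℕ) (hk1 : 1 ≤ k) : ⁅Hn (ι := ι), Ek i k⁆ = (2 : ℚ) • Ek i (k + 1) := by
  apply derivation_ext
  rintro ⟨j, n | n⟩
  · rw [Derivation.commutator_apply, Derivation.smul_apply]
    have e2 : ∀ k, Ek i k (X (j, Sum.inl n)) = 0 := fun k => Ek_py i j k (n + 1)
    have e3 : Hn (X (j, Sum.inl n)) = py j n := by rw [Hn, mkDerivation_X]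
    rw [e2, e2, e3, map_zero, smul_zero, Ek_py, sub_zero]
  · rw [Derivation.commutator_apply, Derivation.smul_apply]
    have e3 : Hn (X (j, Sum.inr n)) = -pq j n := by rw [Hn, mkDerivation_X]
    by_cases h : i = j
    · subst h
      have e2 : ∀ k, 1 ≤ k → Ek i k (X (i, Sum.inr n)) = sh (py i) k (n + 1) := fun k hk => Ek_pq i k (n + 1) hk
      rw [e2 _ hk1, e2 _ (by omega), e3, map_neg, sub_neg_eq_add, two_smul]
      congr 1
      · by_cases hk : k ≤ n + 1
        · rw [sh, if_pos hk, Hn_py, sh_sh _ _ _ _ hk, add_comm]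
        · rw [sh, if_neg hk, map_zero, sh, if_neg (by omega)]
      · rw [Ek_pq _ _ _ hk1]
        have := sh_sh (py i) k 1 (n + 1) (by omega)
        rw [Nat.add_sub_cancel] at this
        exact this
    · have e2 : ∀ k, Ek i k (X (j, Sum.inr n)) = 0 := fun k => Ek_pq_ne h k (n + 1)
      rw [e2, e2, e3, map_zero, smul_zero, map_neg, Ek_pq_ne h, neg_zero, sub_zero]

lemma br2 (i : ι) (k : ℕ) (hk1 : 1 ≤ k) : ⁅Hn (ι := ι), Fk i k⁆ = (-2 : ℚ) • Fk i (k + 1) := by
  apply derivation_ext
  rintro ⟨j, n | n⟩
  · rw [Derivation.commutator_apply, Derivation.smul_apply]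
    have e3 : Hn (X (j, Sum.inl n)) = py j n := by rw [Hn, mkDerivation_X]
    by_cases h : i = j
    · subst h
      have e2 : ∀ k, 1 ≤ k → Fk i k (X (i, Sum.inl n)) = sh (pq i) k (n + 1) := fun k hk => Fk_py i k (n + 1) hk
      rw [e2 _ hk1, e2 _ (by omega), e3, neg_smul, two_smul, neg_add, sub_eq_add_neg]
      congr 1
      · by_cases hk : k ≤ n + 1
        · rw [sh, if_pos hk, Hn_pq, sh_sh _ _ _ _ hk, add_comm]
        · rw [sh, if_neg hk, map_zero, sh, if_neg (by omega), neg_zero]
      · rw [Fk_py _ _ _ hk1]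
        have := sh_sh (pq i) k 1 (n + 1) (by omega)
        rw [Nat.add_sub_cancel] at this
        rw [this]
    · have e2 : ∀ k, Fk i k (X (j, Sum.inl n)) = 0 := fun k => Fk_py_ne h k (n + 1)
      rw [e2, e2, e3, map_zero, smul_zero, Fk_py_ne h, sub_zero]
  · rw [Derivation.commutator_apply, Derivation.smul_apply]
    have e2 : ∀ k, Fk i k (X (j, Sum.inr n)) = 0 := fun k => Fk_pq i j k (n + 1)
    have e3 : Hn (X (j, Sum.inr n)) = -pq j n := by rw [Hn, mkDerivation_X]
    rw [e2, e2, e3, map_zero, smul_zero, map_neg, Fk_pq, neg_zero, sub_zero]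

/-- the common constants of the letters are the constants -/
theorem K2 (P : MvPolynomial (Va ι) ℚ) (hP : ∀ l, (LN (ι := ι)).dl ℚ l P = 0) : ∃ r, P = C r := by
  apply const_of_pderiv
  have hH : Hn P = 0 := by rw [← dl_none]; exact hP _
  have key : ∀ i : ι, ∀ n, pderiv (i, Sum.inl n) P = 0 ∧ pderiv (i, Sum.inr n) P = 0 := by
    intro i
    have hE1 : Ek i 1 P = 0 := by rw [← dl_true]; exact hP _
    have hF1 : Fk i 1 P = 0 := by
      have := hP (some (i, false))
      rw [dl_false, Derivation.neg_apply, neg_eq_zero] at this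
      exact this
    have hE : ∀ k, Ek i (k + 1) P = 0 := by
      intro k
      induction k with
      | zero => exact hE1
      | succ k ih =>
        have h1 : (2 : ℚ) • Ek i (k + 1 + 1) P = 0 := by
          rw [← Derivation.smul_apply, ← br1 i (k + 1) (by omega), Derivation.commutator_apply, ih, hH, map_zero, map_zero,
            sub_zero]
        exact (smul_eq_zero.1 h1).resolve_left (by norm_num)
    have hF : ∀ k, Fk i (k + 1) P = 0 := by
      intro k
      induction k with
      | zero => exact hF1
      | succ k ih =>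
        have h1 : (-2 : ℚ) • Fk i (k + 1 + 1) P = 0 := by
          rw [← Derivation.smul_apply, ← br2 i (k + 1) (by omega), Derivation.commutator_apply, ih, hH, map_zero, map_zero,
            sub_zero]
        exact (smul_eq_zero.1 h1).resolve_left (by norm_num)
    obtain ⟨M, hM⟩ : ∃ M, ∀ n ≥ M, pderiv (i, Sum.inl n) P = 0 ∧ pderiv (i, Sum.inr n) P = 0 := by
      classical
      refine ⟨P.vars.sup (fun v => Sum.elim id id v.2) + 1, fun n hn => ⟨?_, ?_⟩⟩
      · apply pderiv_eq_zero_of_notMem_vars
        intro h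
        have := Finset.le_sup (f := fun v : Va ι => Sum.elim id id v.2) h
        simp only [Sum.elim_inl, id] at this
        omega
      · apply pderiv_eq_zero_of_notMem_vars
        intro h
        have := Finset.le_sup (f := fun v : Va ι => Sum.elim id id v.2) h
        simp only [Sum.elim_inr, id] at this
        omega
    have step : ∀ k, (∀ n ≥ k + 1, pderiv (i, Sum.inl n) P = 0 ∧ pderiv (i, Sum.inr n) P = 0) →
        ∀ n ≥ k, pderiv (i, Sum.inl n) P = 0 ∧ pderiv (i, Sum.inr n) P = 0 := by
      intro k hk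
      have h1 : pderiv (i, Sum.inr k) P = 0 := by
        refine deriv_single (Ek i (k + 1)) P _ ?_ ?_ (hE k)
        · rw [Ek, mkDerivation_X]; simp [sh, py]
        · rintro ⟨j, n | n⟩ hv
          · left; rw [Ek, mkDerivation_X]
          · by_cases h : i = j
            · subst h
              rcases lt_trichotomy n k with hn | hn | hn
              · left
                rw [Ek, mkDerivation_X]
                simp only [if_true, sh]
                rw [if_neg (by omega)]
              · exact absurd (by rw [hn]) hv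
              · right; exact (hk n hn).2
            · left; rw [Ek, mkDerivation_X]; simp [h]
      have h3 : pderiv (i, Sum.inl k) P = 0 := by
        refine deriv_single (Fk i (k + 1)) P _ ?_ ?_ (hF k)
        · rw [Fk, mkDerivation_X]; simp [sh, pq]
        · rintro ⟨j, n | n⟩ hv
          · by_cases h : i = j
            · subst h
              rcases lt_trichotomy n k with hn | hn | hn
              · left
                rw [Fk, mkDerivation_X]
                simp only [if_true, sh]
                rw [if_neg (by omega)]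
              · exact absurd (by rw [hn]) hv
              · right; exact (hk n hn).1
            · left; rw [Fk, mkDerivation_X]; simp [h]
          · left; rw [Fk, mkDerivation_X]
      intro n hn
      rcases eq_or_lt_of_le hn with h | h
      · rw [← h]; exact ⟨h3, h1⟩
      · exact hk n h
    have hall : ∀ m, m ≤ M → ∀ n ≥ M - m, pderiv (i, Sum.inl n) P = 0 ∧ pderiv (i, Sum.inr n) P = 0 := by
      intro m
      induction m with
      | zero => intro _; exact hM
      | succ m ih =>
        intro hm
        have := ih (by omega)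
        refine step _ ?_
        intro n hn
        exact this n (by omega)
    intro n
    exact hall M le_rfl n (by omega)
  rintro ⟨i, n | n⟩
  · exact (key i n).1
  · exact (key i n).2

end

end Pool.Agent.W5h65.NC
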