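import Pool.Agent.W5h65.NC.Der2
import Pool.Agent.W5h65.NC.Alg

/-!
# Moments of `exp (-s) I(r s)`, `I(u) = ∑ u^k / k!²`
-/

set_option autoImplicit false

open Filter Topology Set MeasureTheory

namespace Pool.Agent.W5h65.NC

open Pool.Agent.R352.E (fr mo mo0 PA PC dPA cc fr_integrable)
open Pool.Agent.W5h65.GS (FI cum PM PK Mm Mm_zero Mm_rec es es_zero es_zero_right es_bound hasSum_cg)

/-- `I(u) = ∑ u^k / k!²` -/
noncomputable def bess (u : ℝ) : ℝ := ∑' k : ℕ, u ^ k / (k.factorial : ℝ) ^ 2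

lemma bess_summable (u : ℝ) : Summable fun k : ℕ => u ^ k / (k.factorial : ℝ) ^ 2 := by
  refine Summable.of_norm_bounded (Real.summable_pow_div_factorial |u|) fun k => ?_
  rw [Real.norm_eq_abs, abs_div, abs_pow, abs_of_nonneg (by positivity : (0 : ℝ) ≤ (k.factorial : ℝ) ^ 2)]
  refine div_le_div_of_nonneg_left (by positivity) (by positivity) ?_
  exact le_self_pow₀ (by exact_mod_cast Nat.one_le_iff_ne_zero.2 (Nat.factorial_ne_zero k)) (by norm_num)

lemma bess_hasSum (u : ℝ) : HasSum (fun k : ℕ => u ^ k / (k.factorial : ℝ) ^ 2) (bess u) := (bess_summable u).hasSum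

lemma bess_cont : Continuous bess := by
  rw [continuous_iff_continuousAt]
  intro x
  have h1 : ContinuousOn bess (Metric.ball 0 (|x| + 1)) := by
    refine continuousOn_tsum (u := fun k : ℕ => (|x| + 1) ^ k / k.factorial) (fun k => by fun_prop)
      (Real.summable_pow_div_factorial _) (fun k u hu => ?_)
    rw [Metric.mem_ball, dist_zero_right, Real.norm_eq_abs] at hu
    rw [Real.norm_eq_abs, abs_div, abs_pow, abs_of_nonneg (by positivity : (0 : ℝ) ≤ (k.factorial : ℝ) ^ 2)]
    refine div_le_div₀ (by positivity) (pow_le_pow_left₀ (abs_nonneg _) hu.le k) (by positivity) ?_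
    exact le_self_pow₀ (by exact_mod_cast Nat.one_le_iff_ne_zero.2 (Nat.factorial_ne_zero k)) (by norm_num)
  refine h1.continuousAt (Metric.isOpen_ball.mem_nhds ?_)
  rw [Metric.mem_ball, dist_zero_right, Real.norm_eq_abs]
  linarith

lemma hasSum_exp' (x : ℝ) : HasSum (fun k : ℕ => x ^ k / k.factorial) (Real.exp x) := by
  have := NormedSpace.expSeries_div_hasSum_exp x
  rwa [← Real.exp_eq_exp_ℝ] at this

lemma bess_abs (u : ℝ) : |bess u| ≤ bess |u| := by
  refine HasSum.norm_le_of_bounded (bess_hasSum u) (bess_hasSum |u|) fun k => ?_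
  rw [Real.norm_eq_abs, abs_div, abs_pow, abs_of_nonneg (by positivity : (0 : ℝ) ≤ (k.factorial : ℝ) ^ 2)]

lemma bess_bound (r s : ℝ) (hs : 0 < s) : bess (|r| * s) ≤ Real.exp (2 * |r|) * Real.exp (s / 2) := by
  have h1 : HasSum (fun k : ℕ => Real.exp (2 * |r|) * ((s / 2) ^ k / k.factorial)) (Real.exp (2 * |r|) * Real.exp (s / 2)) :=
    (hasSum_exp' (s / 2)).mul_left _
  refine hasSum_le (fun k => ?_) (bess_hasSum _) h1
  have h2 : (2 * |r|) ^ k / k.factorial ≤ Real.exp (2 * |r|) :=
    le_hasSum (hasSum_exp' (2 * |r|)) k (fun j _ => by positivity)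
  calc (|r| * s) ^ k / (k.factorial : ℝ) ^ 2 = (2 * |r|) ^ k / k.factorial * ((s / 2) ^ k / k.factorial) := by
        rw [div_mul_div_comm, ← mul_pow, sq]
        congr 2
        ring
    _ ≤ Real.exp (2 * |r|) * ((s / 2) ^ k / k.factorial) := mul_le_mul_of_nonneg_right h2 (by positivity)

/-- the weight -/
noncomputable def gN (r s : ℝ) : ℝ := bess (r * s) * Real.exp (-s)

lemma gN_bound (r s : ℝ) (hs : 0 < s) : bess (|r| * s) * Real.exp (-s) ≤ Real.exp (2 * |r|) * Real.exp (-(s / 2)) := by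
  calc bess (|r| * s) * Real.exp (-s) ≤ Real.exp (2 * |r|) * Real.exp (s / 2) * Real.exp (-s) :=
        mul_le_mul_of_nonneg_right (bess_bound r s hs) (Real.exp_pos _).le
    _ = _ := by
      rw [mul_assoc, ← Real.exp_add]
      congr 2
      ring

lemma gN_nice (r : ℝ) : Nice2 (gN r) where
  cont := by
    unfold gN
    exact ((bess_cont.comp (by fun_prop)).mul (by fun_prop)).continuousOn
  bound := by
    refine ⟨Real.exp (2 * |r|), fun s hs => ?_⟩
    rw [gN, abs_mul, abs_of_pos (Real.exp_pos (-s))]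
    refine le_trans (mul_le_mul_of_nonneg_right (bess_abs _) (Real.exp_pos _).le) ?_
    rw [abs_mul, abs_of_pos hs]
    exact gN_bound r s hs

/-- termwise integration -/
lemma FI_hasSum (l : ℕ) (r : ℝ) : HasSum (fun k : ℕ => r ^ k / (k.factorial : ℝ) ^ 2 * Mm l k) (FI (gN r) l 0) := by
  have hlog : ContinuousOn (fun s : ℝ => Real.log s) (Ioi 0) :=
    Real.continuousOn_log.mono fun x hx => (ne_of_gt hx : x ≠ 0)
  have h := hasSum_integral_of_dominated_convergence (μ := volume.restrict (Ioi (0 : ℝ)))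
    (F := fun k s => Real.log s ^ l * ((r * s) ^ k / (k.factorial : ℝ) ^ 2 * Real.exp (-s)))
    (f := fun s => Real.log s ^ l * (bess (r * s) * Real.exp (-s)))
    (fun k s => |Real.log s| ^ l * ((|r| * s) ^ k / (k.factorial : ℝ) ^ 2 * Real.exp (-s))) ?_ ?_ ?_ ?_ ?_
  · have e : ∫ s in Ioi (0 : ℝ), Real.log s ^ l * (bess (r * s) * Real.exp (-s)) = FI (gN r) l 0 := by
      rw [FI]
      refine setIntegral_congr_fun measurableSet_Ioi fun s _ => ?_
      simp only [gN]
      rw [Real.rpow_zero, one_mul]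
    rw [e] at h
    refine hasSum_cg (fun k => ?_) h
    rw [Mm, ← integral_const_mul]
    refine setIntegral_congr_fun measurableSet_Ioi fun s _ => ?_
    simp only [fr]
    rw [mul_pow]
    ring
  · intro k
    refine ContinuousOn.aestronglyMeasurable ?_ measurableSet_Ioi
    exact (hlog.pow _).mul (by fun_prop)
  · intro k
    filter_upwards [ae_restrict_mem measurableSet_Ioi] with s hs
    have hs' : (0 : ℝ) < s := hs
    rw [norm_mul, norm_pow, norm_mul, norm_div, norm_pow, norm_mul, Real.norm_eq_abs, Real.norm_eq_abs, Real.norm_eq_abs,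
      Real.norm_eq_abs, Real.norm_eq_abs, abs_of_pos hs', abs_of_pos (Real.exp_pos _),
      abs_of_nonneg (by positivity : (0 : ℝ) ≤ (k.factorial : ℝ) ^ 2)]
  · filter_upwards [ae_restrict_mem measurableSet_Ioi] with s _
    exact ((bess_summable (|r| * s)).mul_right _).mul_left _
  · have h1 : IntegrableOn (fun s : ℝ => |Real.log s| ^ l * (bess (|r| * s) * Real.exp (-s))) (Ioi 0) := by
      have h2 := (pow_int2 0 (by norm_num) l).const_mul (Real.exp (2 * |r|))
      refine Integrable.mono' h2 ?_ ?_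
      · refine ContinuousOn.aestronglyMeasurable ?_ measurableSet_Ioi
        exact (hlog.abs.pow _).mul ((bess_cont.comp (by fun_prop)).mul (by fun_prop)).continuousOn
      · filter_upwards [ae_restrict_mem measurableSet_Ioi] with s hs
        have hs' : (0 : ℝ) < s := hs
        have h0 : 0 ≤ bess (|r| * s) := (bess_hasSum _).nonneg fun k => by positivity
        rw [Real.norm_eq_abs, abs_of_nonneg (by positivity), Real.rpow_zero, one_mul]
        calc |Real.log s| ^ l * (bess (|r| * s) * Real.exp (-s))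
            ≤ |Real.log s| ^ l * (Real.exp (2 * |r|) * Real.exp (-(s / 2))) :=
              mul_le_mul_of_nonneg_left (gN_bound r s hs') (by positivity)
          _ = _ := by ring
    refine h1.congr_fun (fun s _ => ?_) measurableSet_Ioi
    simp only
    rw [tsum_mul_left, tsum_mul_right]
    rfl
  · filter_upwards [ae_restrict_mem measurableSet_Ioi] with s _
    exact ((bess_hasSum (r * s)).mul_right _).mul_left _

open PowerSeries Finset.HasAntidiagonal

/-- generating series -/
noncomputable def Pes (k : ℕ) : ℝ⟦X⟧ := PowerSeries.mk fun j => ((es j k : ℚ) : ℝ)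
noncomputable def PDl (k : ℕ) : ℝ⟦X⟧ := PowerSeries.mk fun l => Mm l k / (l.factorial * k.factorial)

lemma PDl_rec (k : ℕ) : PDl (k + 1) = (1 + C (1 / ((k : ℝ) + 1)) * X) * PDl k := by
  ext l
  have h1 : ((k : ℝ) + 1) ≠ 0 := by positivity
  have h4 : (l.factorial : ℝ) ≠ 0 := by exact_mod_cast Nat.factorial_ne_zero _
  have h5 : (k.factorial : ℝ) ≠ 0 := by exact_mod_cast Nat.factorial_ne_zero _
  rw [add_mul, one_mul, mul_assoc, map_add, coeff_C_mul]
  cases l with
  | zero =>
    rw [coeff_zero_X_mul, PDl, PDl, coeff_mk, coeff_mk, Mm_rec, Nat.factorial_succ k]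
    push_cast
    field_simp
    ring
  | succ l =>
    rw [coeff_succ_X_mul, PDl, PDl, coeff_mk, coeff_mk, coeff_mk, Mm_rec, Nat.add_sub_cancel, Nat.factorial_succ k,
      Nat.factorial_succ l]
    have h6 : (l.factorial : ℝ) ≠ 0 := by exact_mod_cast Nat.factorial_ne_zero _
    have h7 : (l : ℝ) + 1 ≠ 0 := by positivity
    push_cast
    field_simp

lemma Pes_rec (k : ℕ) : Pes (k + 1) = (1 + C (1 / ((k : ℝ) + 1)) * X) * Pes k := by
  ext j
  rw [add_mul, one_mul, mul_assoc, map_add, coeff_C_mul]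
  cases j with
  | zero => rw [coeff_zero_X_mul, Pes, Pes, coeff_mk, coeff_mk, es_zero, es_zero]; simp
  | succ j =>
    rw [coeff_succ_X_mul, Pes, Pes, coeff_mk, coeff_mk, coeff_mk, es_succ]
    push_cast
    ring

lemma PDl_eq (k : ℕ) : PDl k = PA * Pes k := by
  induction k with
  | zero =>
    have h1 : Pes 0 = 1 := by
      ext j
      rw [Pes, coeff_mk, es_zero_right, coeff_one]
      split_ifs <;> simp
    rw [h1, mul_one]
    ext l
    rw [PDl, PA, coeff_mk, coeff_mk, Mm_zero]
    simp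
  | succ k ih =>
    rw [PDl_rec, ih, Pes_rec]
    ring

lemma Mm_es (l k : ℕ) : Mm l k = l.factorial * k.factorial *
    ∑ p ∈ antidiagonal l, mo p.1 / p.1.factorial * ((es p.2 k : ℚ) : ℝ) := by
  have h := congrArg (coeff l) (PDl_eq k)
  rw [PDl, coeff_mk, coeff_mul] at h
  simp only [PA, Pes, coeff_mk] at h
  rw [← h]
  have h1 : (k.factorial : ℝ) ≠ 0 := by exact_mod_cast Nat.factorial_ne_zero _
  have h4 : (l.factorial : ℝ) ≠ 0 := by exact_mod_cast Nat.factorial_ne_zero _
  field_simp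

lemma Zv_hasSum (n : ℕ) (x : ℝ) : HasSum (fun k : ℕ => ((es n k : ℚ) : ℝ) * (x ^ k / k.factorial)) (Zv n x) := by
  refine Summable.hasSum ?_
  refine Summable.of_norm_bounded (Real.summable_pow_div_factorial (2 * |x|)) fun k => ?_
  have h1 : |((es n k : ℚ) : ℝ)| ≤ 2 ^ k := by
    have h0 := es_le n k
    have : ((|es n k| : ℚ) : ℝ) ≤ ((2 ^ k : ℚ) : ℝ) := by exact_mod_cast h0
    push_cast at this
    exact this
  rw [Real.norm_eq_abs, abs_mul, abs_div, abs_pow, Nat.abs_cast, mul_pow, mul_div_assoc]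
  exact mul_le_mul_of_nonneg_right h1 (by positivity)

/-- the moments -/
theorem FI_eq (l : ℕ) (r : ℝ) : FI (gN r) l 0 = l.factorial * ∑ p ∈ antidiagonal l, mo p.1 / p.1.factorial * Zv p.2 r := by
  have h2 : HasSum (fun k : ℕ => (l.factorial : ℝ) * ∑ p ∈ antidiagonal l, mo p.1 / p.1.factorial *
      (((es p.2 k : ℚ) : ℝ) * (r ^ k / k.factorial))) (l.factorial * ∑ p ∈ antidiagonal l, mo p.1 / p.1.factorial * Zv p.2 r) :=
    (hasSum_sum fun p _ => (Zv_hasSum p.2 r).mul_left _).mul_left _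
  refine (FI_hasSum l r).unique (hasSum_cg (fun k => ?_) h2)
  have e : ∑ p ∈ antidiagonal l, mo p.1 / p.1.factorial * (((es p.2 k : ℚ) : ℝ) * (r ^ k / k.factorial)) =
      r ^ k / k.factorial * ∑ p ∈ antidiagonal l, mo p.1 / p.1.factorial * ((es p.2 k : ℚ) : ℝ) := by
    rw [Finset.mul_sum]
    exact Finset.sum_congr rfl fun p _ => by ring
  rw [e, Mm_es]
  have h1 : (k.factorial : ℝ) ≠ 0 := by exact_mod_cast Nat.factorial_ne_zero _
  field_simp

/-- the series of the `Z_n` -/
noncomputable def PZ (r : ℝ) : ℝ⟦X⟧ := PowerSeries.mk fun n => Zv n r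

lemma PM_gN (r : ℝ) : PM (gN r) = PA * PZ r := by
  ext l
  rw [PM, coeff_mk, FI_eq, coeff_mul]
  simp only [PA, PZ, coeff_mk]
  have h4 : (l.factorial : ℝ) ≠ 0 := by positivity
  field_simp

lemma Zv_zero (r : ℝ) : Zv 0 r = Real.exp r := by
  refine (Zv_hasSum 0 r).unique (hasSum_cg (fun k => ?_) (hasSum_exp' r))
  rw [es_zero]
  simp

lemma FI_zero (r : ℝ) : FI (gN r) 0 0 = Real.exp r := by
  rw [FI_eq]
  simp [mo0, Zv_zero]

lemma PA_ne : (PA : ℝ⟦X⟧) ≠ 0 := by
  intro h
  have := congrArg (coeff 0) h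
  rw [PA, coeff_mk, mo0, map_zero] at this
  simp at this

/-- the logarithmic derivative of the series of the `Z_n` -/
theorem dPZ (r : ℝ) : PowerSeries.derivative ℝ (PZ r) = PZ r * (PK (gN r) - PC) := by
  have hK := dPM2 (gN_nice r) (by rw [FI_zero]; exact (Real.exp_pos r).ne')
  rw [PM_gN, Derivation.leibniz, dPA] at hK
  simp only [smul_eq_mul] at hK
  apply mul_left_cancel₀ PA_ne
  linear_combination hK

/-- the cumulants without the gamma factor -/
noncomputable def rk (r : ℝ) (n : ℕ) : ℝ := cum (gN r) (n + 1) - cc n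

lemma coeff_rk (r : ℝ) (n : ℕ) : coeff n (PK (gN r) - PC) = rk r n / n.factorial := by
  rw [map_sub, PK, PC, coeff_mk, coeff_mk, rk]
  have h4 : (n.factorial : ℝ) ≠ 0 := by positivity
  field_simp

lemma Zv_at_zero (n : ℕ) : Zv n 0 = if n = 0 then 1 else 0 := by
  refine (Zv_hasSum n 0).unique ?_
  have h := hasSum_single (f := fun k : ℕ => ((es n k : ℚ) : ℝ) * ((0 : ℝ) ^ k / k.factorial)) 0 (fun k hk => by
    rw [zero_pow hk]; simp)
  convert h using 1
  rw [es_zero_right]
  split_ifs <;> simp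

/-- the cumulants at `r = 0` are those of the gamma factor -/
theorem rk_zero (n : ℕ) : rk 0 n = 0 := by
  have h1 : PZ 0 = 1 := by
    ext n
    rw [PZ, coeff_mk, Zv_at_zero, coeff_one]
  have h2 := dPZ 0
  rw [h1, one_mul, Derivation.map_one_eq_zero] at h2
  have h3 := congrArg (coeff n) h2
  rw [coeff_rk, map_zero] at h3
  have h4 : (n.factorial : ℝ) ≠ 0 := by positivity
  exact (div_eq_zero_iff.1 h3.symm).resolve_right h4

end Pool.Agent.W5h65.NC
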